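import Pool.Agent.Helper57.SC.LemS
import Pool.Agent.Helper57.SC.Ann

/-! ZH-4 (project FOL, case Y, z = 4): the element `b_z`.
`σ ∈ EE (rs2 η) 2`, `σ ≠ 0`; `EE_lift`: `ξ` of degree 2, `b` of degree 4 with `res ξ = σ`, `ξ ∧ η = X 0 b`; `b ∈ BS η 4` (`hz`); `b ∉ B`: otherwise
`EE_lift_iff` gives a lift of `σ` in `EE η 2 = ⊥`.
`F` = image of `EE η 3` in `EE (rs2 η) 3` under `res`, of dimension 5 (`res_inj`: the kernel is `X 0 * EE η 2 = 0`); `L` = the products `lf a * σ`, `a ∈ ℂ^3`, of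
dimension 3 (`σ ≠ 0`).  `dim (F ⊓ L) ≥ 5 + 3 - 6 = 2` (`Submodule.finrank_sup_add_finrank_inf_eq`).  If `lf a * σ = res f`, `f ∈ EE η 3`, then for
`a' = (0, a)` (`Fin.cons 0 a`): `lf a' * ξ` restricts to `lf a * σ` and `(lf a' * ξ) ∧ η = X 0 * (lf a' * b)`, so `EE_lift_iff` (`k = 3`): `lf a' * b ∈ B`.
`e0 ∈ AnnB η b`; altogether dimension `≥ 1 + 2`. -/

set_option autoImplicit false

namespace Pool.Agent.Helper57.ZH

open MvPolynomial
open scoped BigOperators
open Pool.Agent.Helper71.FL (w12 pf ct Dec Closed dd at0 emb res)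
open Pool.Agent.Helper93 (lsub lmap OF pb)
open Pool.Agent.Helper71.FC
open Pool.Agent.Helper57.SC (AnnB mem_AnnB e0 lf_e0 LiftAt InjAt res_inj)

private theorem bz_lf_hom {n : ℕ} (a : Fin n → ℂ) : (lf a : Pn n).IsHomogeneous 1 := by
  unfold lf
  refine IsHomogeneous.sum _ _ _ fun i _ => ?_
  exact (isHomogeneous_X ℂ i).C_mul (a i)

private theorem bz_lf_add {n : ℕ} (a a' : Fin n → ℂ) : (lf (a + a') : Pn n) = lf a + lf a' := by
  unfold lf
  rw [← Finset.sum_add_distrib]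
  refine Finset.sum_congr rfl fun i _ => ?_
  rw [Pi.add_apply, C_add, add_mul]

private theorem bz_lf_smul {n : ℕ} (c : ℂ) (a : Fin n → ℂ) : (lf (c • a) : Pn n) = C c * lf a := by
  unfold lf
  rw [Finset.mul_sum]
  refine Finset.sum_congr rfl fun i _ => ?_
  rw [Pi.smul_apply, smul_eq_mul, C_mul, mul_assoc]

private theorem bz_at0_lf {n : ℕ} (t : ℂ) (a : Fin n → ℂ) :
    at0 n ℂ (lf (Fin.cons t a : Fin (n + 1) → ℂ)) = lf a := by
  unfold lf
  rw [Fin.sum_univ_succ]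
  simp only [Fin.cons_zero, Fin.cons_succ]
  rw [map_add, map_sum, map_mul]
  have h0 : at0 n ℂ (X 0) = 0 := (at0_eq_zero_iff _).2 ⟨1, by rw [mul_one]⟩
  rw [h0, mul_zero, zero_add]
  refine Finset.sum_congr rfl fun i _ => ?_
  rw [map_mul]
  unfold at0
  rw [aeval_X, Fin.cons_succ, aeval_C]
  rfl

private theorem bz_lf_cons {n : ℕ} (t : ℂ) (a : Fin n → ℂ) :
    (lf (Fin.cons t a : Fin (n + 1) → ℂ) : Pn (n + 1)) = C t * X 0 + lf (Fin.cons 0 a : Fin (n + 1) → ℂ) := by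
  unfold lf
  rw [Fin.sum_univ_succ, Fin.sum_univ_succ]
  simp only [Fin.cons_zero, Fin.cons_succ]
  rw [C_0, zero_mul, zero_add]

/-- restriction as a linear map -/
private noncomputable def bz_resE (θ : F2 4) (k : ℕ) : EE θ k →ₗ[ℂ] EE (rs2 θ) k where
  toFun ξ := ⟨res ξ.1, res_mem_EE ξ.2⟩
  map_add' a b := by
    apply Subtype.ext
    funext i
    show at0 3 ℂ (a.1 i.succ + b.1 i.succ) = at0 3 ℂ (a.1 i.succ) + at0 3 ℂ (b.1 i.succ)
    rw [map_add]
  map_smul' c a := by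
    apply Subtype.ext
    funext i
    show at0 3 ℂ (c • a.1 i.succ) = c • at0 3 ℂ (a.1 i.succ)
    rw [map_smul]

/-- products with linear forms -/
private noncomputable def bz_mul (θ : F2 3) (k : ℕ) (σ : F1 3) (hσ : σ ∈ EE θ k) :
    (Fin 3 → ℂ) →ₗ[ℂ] EE θ (k + 1) where
  toFun a := ⟨fun i => lf a * σ i, fun i => by
      have := (bz_lf_hom a).mul (hσ.1 i)
      rwa [add_comm] at this, fun i j l => by
      rw [Pool.Agent.Helper71.FL.w12_smul, hσ.2, mul_zero]⟩
  map_add' a b := by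
    apply Subtype.ext
    funext i
    show lf (a + b) * σ i = lf a * σ i + lf b * σ i
    rw [bz_lf_add, add_mul]
  map_smul' c a := by
    apply Subtype.ext
    funext i
    show lf (c • a) * σ i = c • (lf a * σ i)
    rw [bz_lf_smul, smul_eq_C_mul, mul_assoc]

theorem exists_b {η : F2 4} (hF : Fol η) (h0 : hz η) (hFP : Fol (rs2 η)) (h2 : EE η 2 = ⊥)
    (e2 : Module.finrank ℂ (EE (rs2 η) 2) ≠ 0) (e3H : Module.finrank ℂ (EE η 3) = 5)
    (e3P : Module.finrank ℂ (EE (rs2 η) 3) ≤ 6) :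
    ∃ b ∈ BS η 4, ¬ IsB η b ∧ IsB η (fun i j l => X 0 * b i j l) ∧
      3 ≤ Module.finrank ℂ (AnnB η b) := by
  classical
  have i1 := finite_EE η 3
  have i2 := finite_EE (rs2 η) 3
  have i3 := finite_EE (rs2 η) 2
  have hnz : ∃ i j, rs2 η i j ≠ 0 := by
    by_contra hcon
    push Not at hcon
    have := hFP.prim 0 (fun i j => by rw [hcon])
    exact not_isUnit_zero this
  obtain ⟨σ, hσ, hσ0⟩ : ∃ σ ∈ EE (rs2 η) 2, σ ≠ 0 := by
    by_contra hcon
    push Not at hcon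
    apply e2
    have : EE (rs2 η) 2 = ⊥ := by
      rw [eq_bot_iff]
      intro x hx
      exact (Submodule.mem_bot ℂ).2 (hcon x hx)
    rw [this, finrank_bot]
  obtain ⟨ξ, hξ, hr, b, hbh, hb⟩ := EE_lift hF.hom hF.dec hFP.prim hσ
  have hB1 : IsB η (fun i j k => X 0 * b i j k) := ⟨ξ, fun i j l => (hb i j l).symm⟩
  have hs : IsBsat η b := h0 b hB1.sat
  have hbn : ¬ IsB η b := by
    intro h
    obtain ⟨ξ', hξ', hr'⟩ := (EE_lift_iff hF.hom hnz hξ hb).2 h
    rw [h2] at hξ'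
    have h3 := (Submodule.mem_bot ℂ).1 hξ'
    apply hσ0
    funext i
    rw [← hr i, ← hr' i, h3]
    show at0 3 ℂ 0 = 0
    exact map_zero _
  refine ⟨b, ⟨hbh, hs⟩, hbn, hB1, ?_⟩
  -- the maps
  have hinj : Function.Injective (bz_resE η 3) := by
    rw [injective_iff_map_eq_zero]
    intro a ha
    apply Subtype.ext
    exact res_inj hnz (k := 2) (by rw [h2, finrank_bot]) a.2 (fun i => congrFun (congrArg Subtype.val ha) i)
  have hF5 : Module.finrank ℂ (LinearMap.range (bz_resE η 3)) = 5 := by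
    rw [LinearMap.finrank_range_of_inj hinj, e3H]
  let Φ : (Fin 3 → ℂ) →ₗ[ℂ] (EE (rs2 η) 3 ⧸ LinearMap.range (bz_resE η 3)) :=
    (LinearMap.range (bz_resE η 3)).mkQ.comp (bz_mul (rs2 η) 2 σ hσ)
  have hq := Submodule.finrank_quotient_add_finrank (LinearMap.range (bz_resE η 3))
  have hk := LinearMap.finrank_range_add_finrank_ker Φ
  have hk1 : Module.finrank ℂ (LinearMap.range Φ) ≤ 1 := by
    have := Submodule.finrank_le (LinearMap.range Φ)
    omega
  have hk2 : 2 ≤ Module.finrank ℂ (LinearMap.ker Φ) := by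
    rw [Module.finrank_fin_fun] at hk
    omega
  have key : ∀ a ∈ LinearMap.ker Φ, ∀ t : ℂ, (Fin.cons t a : Fin 4 → ℂ) ∈ AnnB η b := by
    intro a ha t
    have h3 : bz_mul (rs2 η) 2 σ hσ a ∈ LinearMap.range (bz_resE η 3) := by
      rw [LinearMap.mem_ker] at ha
      exact (Submodule.Quotient.mk_eq_zero _).1 ha
    obtain ⟨f, hf⟩ := h3
    have h4 : ∀ i, (lf (Fin.cons 0 a : Fin 4 → ℂ) * ξ i).IsHomogeneous 3 := fun i => by
      have := (bz_lf_hom (Fin.cons 0 a : Fin 4 → ℂ)).mul (hξ i)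
      exact this
    have h5 : ∀ i j l, w12 (fun i => lf (Fin.cons 0 a : Fin 4 → ℂ) * ξ i) η i j l =
        X 0 * (lf (Fin.cons 0 a : Fin 4 → ℂ) * b i j l) := by
      intro i j l
      rw [Pool.Agent.Helper71.FL.w12_smul, hb]
      ring
    have h6 := (EE_lift_iff hF.hom hnz h4 h5).1 ⟨f.1, f.2, fun i => by
      have h7 := congrFun (congrArg Subtype.val hf) i
      refine Eq.trans h7 ?_
      show lf a * σ i = at0 3 ℂ (lf (Fin.cons 0 a : Fin 4 → ℂ) * ξ i.succ)
      rw [map_mul, bz_at0_lf, ← hr i]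
      rfl⟩
    rw [mem_AnnB]
    have h8 := (hB1.smul (C t)).add h6
    refine (congrArg (IsB η) ?_).mp h8
    funext i j l
    have h10 := bz_lf_cons t a
    change _ = lf (Fin.cons t a : Fin 4 → ℂ) * b i j l
    rw [h10]
    ring
  let Ψ : (ℂ × LinearMap.ker Φ) →ₗ[ℂ] AnnB η b :=
    { toFun := fun p => ⟨Fin.cons p.1 p.2.1, key _ p.2.2 _⟩
      map_add' := fun p q => by
        apply Subtype.ext
        funext i
        refine Fin.cases ?_ (fun i => ?_) i
        · rfl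
        · rfl
      map_smul' := fun c p => by
        apply Subtype.ext
        funext i
        refine Fin.cases ?_ (fun i => ?_) i
        · rfl
        · rfl }
  have hΨ : Function.Injective Ψ := by
    intro p q h
    have h3 : (Fin.cons p.1 p.2.1 : Fin 4 → ℂ) = Fin.cons q.1 q.2.1 := congrArg Subtype.val h
    have h4 := congrFun h3 0
    apply Prod.ext
    · simpa using h4
    · apply Subtype.ext
      funext i
      have h5 := congrFun h3 i.succ
      simpa using h5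
  have h9 := LinearMap.finrank_le_finrank_of_injective hΨ
  rw [Module.finrank_prod, Module.finrank_self] at h9
  omega

end Pool.Agent.Helper57.ZH
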