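import Pool.Agent.Helper12.Z4.Rank

/-! ZH-2 (project FOL, case Y, z = 4): counting of the linear relations.
`Φ X = ∑ j, X_j * X(e_j)` (`e_j` the unit vectors, `X_j` the variable), a linear map `Hom(ℂ^n, EE θ 3) → EE θ 4`; `Φ X = 0` iff `X ∈ RL θ`
(`(X x)(x) = ∑ x_j X(e_j)(x)`, `MvPolynomial.funext`).  Rank-nullity: `n * e_3 = finrank (RL θ) + finrank (range Φ)`. -/

set_option autoImplicit false

namespace Pool.Agent.Helper57.ZH

open MvPolynomial
open scoped BigOperators
open Pool.Agent.Helper71.FL (w12 pf ct Dec Closed dd at0 emb res)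
open Pool.Agent.Helper93 (lsub lmap OF pb)
open Pool.Agent.Helper71.FC
open Pool.Agent.Helper12.Z4 (KX RL mem_RL mem_KX)

variable {n : ℕ}

/-- multiplication by a coordinate -/
private noncomputable def mulX (θ : F2 n) (j : Fin n) : EE θ 3 →ₗ[ℂ] EE θ 4 where
  toFun f := ⟨fun i => X j * (f : F1 n) i, by
    refine ⟨fun i => ?_, fun i k l => ?_⟩
    · exact (isHomogeneous_X ℂ j).mul (f.2.1 i)
    · rw [Pool.Agent.Helper71.FL.w12_smul, f.2.2, mul_zero]⟩
  map_add' := by
    intro f g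
    apply Subtype.ext
    funext i
    show X j * ((f : F1 n) i + (g : F1 n) i) = X j * (f : F1 n) i + X j * (g : F1 n) i
    rw [mul_add]
  map_smul' := by
    intro c f
    apply Subtype.ext
    funext i
    show X j * (c • (f : F1 n) i) = c • (X j * (f : F1 n) i)
    rw [mul_smul_comm]

private theorem rn {V W : Type} [AddCommGroup V] [Module ℂ V] [AddCommGroup W] [Module ℂ W]
    [Module.Finite ℂ V] [Module.Finite ℂ W] (Φ : V →ₗ[ℂ] W) (R : Submodule ℂ V)
    (h : ∀ Y, Φ Y = 0 → Y ∈ R) :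
    Module.finrank ℂ V ≤ Module.finrank ℂ R + Module.finrank ℂ W := by
  have h1 := LinearMap.finrank_range_add_finrank_ker Φ
  have h2 : Module.finrank ℂ (LinearMap.range Φ) ≤ Module.finrank ℂ W := Submodule.finrank_le _
  have h3 : Module.finrank ℂ (LinearMap.ker Φ) ≤ Module.finrank ℂ R :=
    Submodule.finrank_mono fun Y hY => h Y hY
  omega

private theorem fr_hom {E : Type} [AddCommGroup E] [Module ℂ E] [Module.Finite ℂ E] :
    Module.finrank ℂ ((Fin n → ℂ) →ₗ[ℂ] E) = n * Module.finrank ℂ E := by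
  rw [Module.finrank_linearMap, Module.finrank_fin_fun]

private theorem count {E F : Type} [AddCommGroup E] [Module ℂ E] [Module.Finite ℂ E]
    [AddCommGroup F] [Module ℂ F] [Module.Finite ℂ F] (m : Fin n → E →ₗ[ℂ] F)
    (R : Submodule ℂ ((Fin n → ℂ) →ₗ[ℂ] E))
    (h : ∀ Y : (Fin n → ℂ) →ₗ[ℂ] E, ∑ j, m j (Y (Pi.single j (1 : ℂ))) = 0 → Y ∈ R) :
    n * Module.finrank ℂ E ≤ Module.finrank ℂ R + Module.finrank ℂ F := by
  let Φ : ((Fin n → ℂ) →ₗ[ℂ] E) →ₗ[ℂ] F :=
    { toFun := fun Y => ∑ j, m j (Y (Pi.single j (1 : ℂ)))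
      map_add' := by
        intro Y Z
        rw [← Finset.sum_add_distrib]
        refine Finset.sum_congr rfl fun j _ => ?_
        rw [LinearMap.add_apply, map_add]
      map_smul' := by
        intro c Y
        rw [RingHom.id_apply, Finset.smul_sum]
        refine Finset.sum_congr rfl fun j _ => ?_
        rw [LinearMap.smul_apply, map_smul] }
  have h1 := rn Φ R h
  rw [fr_hom] at h1
  exact h1

private theorem lin_sum {E : Type} [AddCommGroup E] [Module ℂ E] (Y : (Fin n → ℂ) →ₗ[ℂ] E)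
    (x : Fin n → ℂ) : Y x = ∑ j, x j • Y (Pi.single j (1 : ℂ)) := by
  rw [LinearMap.pi_apply_eq_sum_univ Y x]
  refine Finset.sum_congr rfl fun j _ => ?_
  congr 2
  funext l
  rw [Pi.single_apply]
  by_cases h : j = l
  · rw [if_pos h, if_pos h.symm]
  · rw [if_neg h, if_neg (Ne.symm h)]

private theorem Ph_ker (θ : F2 n) (Y : (Fin n → ℂ) →ₗ[ℂ] EE θ 3)
    (hY : ∑ j, mulX θ j (Y (Pi.single j (1 : ℂ))) = 0) : Y ∈ RL θ := by
  rw [mem_RL]
  intro x
  rw [mem_KX]
  intro i
  have h0 : ∑ j, X j * ((Y (Pi.single j (1 : ℂ)) : EE θ 3) : F1 n) i = 0 := by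
    have h1 := congrFun (congrArg Subtype.val hY) i
    rw [AddSubmonoidClass.coe_finsetSum, Finset.sum_apply] at h1
    exact h1
  have h3 : ((Y x : EE θ 3) : F1 n) i =
      ∑ j, x j • ((Y (Pi.single j (1 : ℂ)) : EE θ 3) : F1 n) i := by
    rw [lin_sum Y x, AddSubmonoidClass.coe_finsetSum, Finset.sum_apply]
    rfl
  have h4 := congrArg (eval x) h0
  rw [map_sum, map_zero] at h4
  rw [h3, map_sum, ← h4]
  refine Finset.sum_congr rfl fun j _ => ?_
  rw [smul_eq_C_mul, map_mul, map_mul, eval_C, eval_X]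

theorem RL_count (θ : F2 n) : n * Module.finrank ℂ (EE θ 3) ≤
    Module.finrank ℂ (RL θ) + Module.finrank ℂ (EE θ 4) := by
  have := finite_EE θ 3
  have := finite_EE θ 4
  exact count (E := EE θ 3) (F := EE θ 4) (mulX θ) (RL θ) (Ph_ker θ)

end Pool.Agent.Helper57.ZH
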