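import Pool.Agent.Helper57.ZH.H
import Pool.Agent.Helper53.TK.PlK

/-! ZH-9 (project FOL, case Y, z = 4): (H1) without hypotheses. -/

set_option autoImplicit false

namespace Pool.Agent.Helper57.ZH

open MvPolynomial
open scoped BigOperators
open Pool.Agent.Helper71.FC
open Pool.Agent.Helper12.Z4 (RL)

theorem pf3 : PF3 := by
  intro θ hF h0 h1 h2 h3
  refine ⟨?_, fun X hX => ?_⟩
  · have : Module.finrank ℂ (EE θ 4) ≤ Module.finrank ℂ (EE θ 3) + 2 * 1 + 5 :=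
      Pool.Agent.Helper53.TK.pl_step hF h0 h1 h2 1
    omega
  · exact Pool.Agent.Helper53.TK.pl_kos hF h0 h1 h2 h3 hX

/-- `e_3(H) = 5`, `e_3(P) = 5` is impossible -/
theorem h1_final {η : F2 4} (hF : Fol η) (h2 : EE η 2 = ⊥) (g0 : ge η 3 0 = 0)
    (g1 : ge η 3 1 = 0) (g2 : ge η 3 2 = 1) (g3 : ge η 3 3 = 5)
    (e3 : Module.finrank ℂ (EE η 3) = 5) : False := h1 pf3 hF h2 g0 g1 g2 g3 e3

end Pool.Agent.Helper57.ZH
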