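import Pool.Agent.Helper71.FC.Flag

/-! ZH-6 (project FOL, case Y, z = 4): coordinates in which all four coordinate hyperplanes are general.
`sw i` = permutation matrix of the transposition `(0 i)`; `Inv (sw i) (sw i)`, `sw i 0 = Pi.single i 1`.
`exists_four`: `GenM (fun g => hz (pb2 g η) ∧ Fol (rs2 (pb2 g η)) ∧ q (columns 1, 2, 3 of g))` by `hz_genM`, `Fol_gen` and `GenM.cols`
(`rs2_pb2` of `FC/Flag.lean`); `GenM.mm_right` with `sw i`, `GenM.all` over `i : Fin 4`, `GenM.inv`, `GenM.exists`. -/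

set_option autoImplicit false

namespace Pool.Agent.Helper57.ZH

open MvPolynomial
open scoped BigOperators
open Pool.Agent.Helper71.FL (w12 pf ct Dec Closed dd at0 emb res)
open Pool.Agent.Helper93 (lsub lmap OF pb)
open Pool.Agent.Helper71.FC

/-- permutation matrix of the transposition `(0 i)` -/
def sw (i : Fin 4) : Fin 4 → Fin 4 → ℂ := fun a b => if Equiv.swap 0 i a = b then 1 else 0

theorem sw_inv (i : Fin 4) : Inv (sw i) (sw i) := by
  have h : mm (sw i) (sw i) = idm 4 := by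
    funext a b
    show ∑ l, (if Equiv.swap 0 i a = l then (1 : ℂ) else 0) *
      (if Equiv.swap 0 i l = b then 1 else 0) = if a = b then 1 else 0
    rw [Finset.sum_eq_single (Equiv.swap 0 i a)]
    · rw [if_pos rfl, one_mul]
      have h0 : Equiv.swap 0 i (Equiv.swap 0 i a) = a := by
        rw [← Equiv.trans_apply, Equiv.swap_swap, Equiv.refl_apply]
      rw [h0]
    · intro l _ hl
      rw [if_neg (Ne.symm hl), zero_mul]
    · intro h
      exact absurd (Finset.mem_univ _) h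
  exact ⟨h, h⟩

theorem sw_zero (i j : Fin 4) : sw i 0 j = if i = j then 1 else 0 := by
  unfold sw
  rw [Equiv.swap_apply_left]

theorem exists_four {η : F2 4} (hF : Fol η) {q : (Fin 4 → Fin 3 → ℂ) → Prop} (hq : GenM q) :
    ∃ g g' : Fin 4 → Fin 4 → ℂ, Inv g g' ∧ ∀ i, hz (pb2 (mm g (sw i)) η) ∧
      Fol (rs2 (pb2 (mm g (sw i)) η)) ∧ q (fun a (b : Fin 3) => mm g (sw i) a b.succ) := by
  have h1 := hz_genM η
  have h2 := (Fol_gen (m := 3) (n := 4) (by norm_num) (by norm_num) hF).cols (k := 4) Fin.succ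
    (Fin.succ_injective 3)
  have h3 := hq.cols (k := 4) Fin.succ (Fin.succ_injective 3)
  have h4 : GenM (fun g : Fin 4 → Fin 4 → ℂ => hz (pb2 g η) ∧ Fol (rs2 (pb2 g η)) ∧
      q (fun a (b : Fin 3) => g a b.succ)) := by
    refine (h1.and (h2.and h3)).mono ?_
    rintro g ⟨a1, a2, a3⟩
    refine ⟨a1, ?_, a3⟩
    rw [rs2_pb2]
    exact a2
  have h5 := GenM.all fun i : Fin 4 => h4.mm_right (sw_inv i)
  obtain ⟨g, ⟨g', hg⟩, h6⟩ := ((GenM.inv 4).and h5).exists
  exact ⟨g, g', hg, h6⟩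

end Pool.Agent.Helper57.ZH
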