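import Pool.Agent.Helper57.SC.Ann
import Pool.Agent.Helper12.Z4.Rank

/-! ZH-3 (project FOL, case Y, z = 4): Koszul relations; three independent linear relations.
* `kosX`: `y_i` linear forms, `y_i b = ξ_i ∧ θ` (`i = 0, 1, 2`), `ε_ij = y_i ξ_j - y_j ξ_i ∈ EE θ 3` (first part of `ann_lemma`);
  `X v = y_0(v) ε_12 + y_1(v) ε_20 + y_2(v) ε_01`; evaluated at `v`: `∑ cyc y_0(v) (y_1(v) ξ_2(v) - y_2(v) ξ_1(v)) = 0`.
* `kos3`.  `A = AnnB η b`, `A' = AnnB η b'` are different 3-dimensional subspaces of `ℂ^4`: choose a basis `x_1, .., x_4` of `ℂ^4` (linear forms) with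
  `A = <x_2, x_3, x_4>`, `A' = <x_1, x_3, x_4>`, and the dual basis `p_1, .., p_4`.  `x_1 b`, `x_2 b'` are in `BS η 5`, not in `B`; `mM η 5 ≤ 1`: there is
  `c ≠ 0` with `x_1 b - c x_2 b' ∈ B`; replace `b'` by `c b'`: `c = 1`.  Then `(x_1 - x_2)(b + b') = x_1 b - x_2 b' + x_1 b' - x_2 b ∈ B`.
  Three relations from `kosX`: `X_b` from `x_2, x_3, x_4`, `X_b'` from `x_1, x_3, x_4`, `X_(b+b')` from `x_1 - x_2, x_3, x_4`.  Take for `x_3 b = ξ_3 ∧ η`,
  `x_4 b = ξ_4 ∧ η`, `x_3 b' = ξ'_3 ∧ η`, `x_4 b' = ξ'_4 ∧ η`, and for `b + b'` the sums `ξ_3 + ξ'_3`, `ξ_4 + ξ'_4`.  `e = x_3 ξ_4 - x_4 ξ_3`,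
  `e' = x_3 ξ'_4 - x_4 ξ'_3`.  `α e + β e' = 0` implies `α b + β b' ∈ B` (`ann_lemma` for `α b + β b'`), so `e, e'` are independent.
  `X_b (p_1) = 0`, `X_b (p_2) = e`, `X_b' (p_1) = e'`, `X_b' (p_2) = 0`, `X_(b+b') (p_1) = e + e'`, `X_(b+b') (p_2) = - (e + e')`:
  the three relations are linearly independent, all in `RL η`. -/

set_option autoImplicit false

namespace Pool.Agent.Helper57.ZH

open MvPolynomial
open scoped BigOperators
open Pool.Agent.Helper71.FL (w12 pf ct Dec Closed dd at0 emb res)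
open Pool.Agent.Helper93 (lsub lmap OF pb)
open Pool.Agent.Helper71.FC
open Pool.Agent.Helper12.Z4 (KX RL mem_RL mem_KX)
open Pool.Agent.Helper57.SC (AnnB mem_AnnB)

variable {n : ℕ}

private theorem lf_hom (a : Fin n → ℂ) : (lf a : Pn n).IsHomogeneous 1 := by
  unfold lf
  refine IsHomogeneous.sum _ _ _ fun i _ => ?_
  exact (isHomogeneous_X ℂ i).C_mul (a i)

private theorem lf_add (a a' : Fin n → ℂ) : (lf (a + a') : Pn n) = lf a + lf a' := by
  unfold lf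
  rw [← Finset.sum_add_distrib]
  refine Finset.sum_congr rfl fun i _ => ?_
  rw [Pi.add_apply, C_add, add_mul]

private theorem lf_smul (c : ℂ) (a : Fin n → ℂ) : (lf (c • a) : Pn n) = C c * lf a := by
  unfold lf
  rw [Finset.mul_sum]
  refine Finset.sum_congr rfl fun i _ => ?_
  rw [Pi.smul_apply, smul_eq_mul, C_mul, mul_assoc]

private theorem lf_sub (a a' : Fin n → ℂ) : (lf (a - a') : Pn n) = lf a - lf a' := by
  unfold lf
  rw [← Finset.sum_sub_distrib]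
  refine Finset.sum_congr rfl fun i _ => ?_
  rw [Pi.sub_apply, C_sub, sub_mul]

private theorem eval_lf (a x : Fin n → ℂ) : eval x (lf a) = ∑ i, a i * x i := by
  unfold lf
  rw [map_sum]
  refine Finset.sum_congr rfl fun i _ => ?_
  rw [map_mul, eval_C, eval_X]

private theorem lf_inj {a : Fin n → ℂ} (h : (lf a : Pn n) = 0) : a = 0 := by
  classical
  funext i
  have h1 := congrArg (eval (Pi.single i (1 : ℂ))) h
  unfold lf at h1
  rw [map_sum, Finset.sum_eq_single i] at h1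
  · simpa using h1
  · intro j _ hj
    rw [map_mul, eval_C, eval_X, Pi.single_eq_of_ne hj, mul_zero]
  · intro h; exact absurd (Finset.mem_univ _) h

/-- the functional of a coefficient vector -/
private noncomputable def fn (y : Fin n → ℂ) : (Fin n → ℂ) →ₗ[ℂ] ℂ where
  toFun v := ∑ l, y l * v l
  map_add' v w := by
    rw [← Finset.sum_add_distrib]
    exact Finset.sum_congr rfl fun l _ => by rw [Pi.add_apply]; ring
  map_smul' c v := by
    rw [RingHom.id_apply, smul_eq_mul, Finset.mul_sum]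
    exact Finset.sum_congr rfl fun l _ => by rw [Pi.smul_apply, smul_eq_mul]; ring

private theorem kmem {θ : F2 n} {b : F3 n} {y y' : Fin n → ℂ} {ξ ξ' : F1 n}
    (hξ : ∀ j, (ξ j).IsHomogeneous 2) (hξ' : ∀ j, (ξ' j).IsHomogeneous 2)
    (h : ∀ j k l, lf y * b j k l = w12 ξ θ j k l)
    (h' : ∀ j k l, lf y' * b j k l = w12 ξ' θ j k l) :
    (fun l => lf y * ξ' l - lf y' * ξ l) ∈ EE θ 3 := by
  refine ⟨fun i => ?_, fun i j k => ?_⟩
  · have h3 := (lf_hom y).mul (hξ' i)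
    have h4 := (lf_hom y').mul (hξ i)
    exact h3.sub h4
  · rw [Pool.Agent.Helper71.FL.w12_sub (fun l => lf y * ξ' l) (fun l => lf y' * ξ l),
      Pool.Agent.Helper71.FL.w12_smul, Pool.Agent.Helper71.FL.w12_smul, ← h, ← h']
    ring

/-- Koszul relations -/
theorem kosX {θ : F2 n} {b : F3 n} (y : Fin 3 → Fin n → ℂ) (ξ : Fin 3 → F1 n)
    (hξ : ∀ i j, (ξ i j).IsHomogeneous 2)
    (h : ∀ i j k l, lf (y i) * b j k l = w12 (ξ i) θ j k l) :
    ∃ X ∈ RL θ, ∀ (v : Fin n → ℂ) (j : Fin n), (X v : F1 n) j =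
      C (∑ l, y 0 l * v l) * (lf (y 1) * ξ 2 j - lf (y 2) * ξ 1 j) +
      C (∑ l, y 1 l * v l) * (lf (y 2) * ξ 0 j - lf (y 0) * ξ 2 j) +
      C (∑ l, y 2 l * v l) * (lf (y 0) * ξ 1 j - lf (y 1) * ξ 0 j) := by
  let e12 : EE θ 3 := ⟨_, kmem (hξ 1) (hξ 2) (h 1) (h 2)⟩
  let e20 : EE θ 3 := ⟨_, kmem (hξ 2) (hξ 0) (h 2) (h 0)⟩
  let e01 : EE θ 3 := ⟨_, kmem (hξ 0) (hξ 1) (h 0) (h 1)⟩
  let X : (Fin n → ℂ) →ₗ[ℂ] EE θ 3 :=
    (fn (y 0)).smulRight e12 + (fn (y 1)).smulRight e20 + (fn (y 2)).smulRight e01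
  have hX : ∀ (v : Fin n → ℂ) (j : Fin n), (X v : F1 n) j =
      C (∑ l, y 0 l * v l) * (lf (y 1) * ξ 2 j - lf (y 2) * ξ 1 j) +
      C (∑ l, y 1 l * v l) * (lf (y 2) * ξ 0 j - lf (y 0) * ξ 2 j) +
      C (∑ l, y 2 l * v l) * (lf (y 0) * ξ 1 j - lf (y 1) * ξ 0 j) := by
    intro v j
    have h1 : (X v : F1 n) j = (fn (y 0) v) • (lf (y 1) * ξ 2 j - lf (y 2) * ξ 1 j) +
        (fn (y 1) v) • (lf (y 2) * ξ 0 j - lf (y 0) * ξ 2 j) +
        (fn (y 2) v) • (lf (y 0) * ξ 1 j - lf (y 1) * ξ 0 j) := rfl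
    rw [h1, smul_eq_C_mul, smul_eq_C_mul, smul_eq_C_mul]
    rfl
  refine ⟨X, fun v j => ?_, hX⟩
  rw [hX]
  simp only [map_add, map_mul, map_sub, eval_C, eval_lf]
  ring

/-- a functional which is `1` at `x` and vanishes on `A` -/
private theorem dual_pt {A : Submodule ℂ (Fin n → ℂ)} {x : Fin n → ℂ} (hx : x ∉ A) :
    ∃ p : Fin n → ℂ, ∑ l, x l * p l = 1 ∧ ∀ a ∈ A, ∑ l, a l * p l = 0 := by
  classical
  obtain ⟨f, hf, hA⟩ := Submodule.exists_le_ker_of_notMem hx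
  have h1 : ∀ a : Fin n → ℂ, ∑ l, a l * ((f x)⁻¹ * f (Pi.single l 1)) = (f x)⁻¹ * f a := by
    intro a
    rw [LinearMap.pi_apply_eq_sum_univ f a, Finset.mul_sum]
    refine Finset.sum_congr rfl fun l _ => ?_
    have : (fun j => if l = j then (1 : ℂ) else 0) = Pi.single l 1 := by
      funext j
      rw [Pi.single_apply]
      simp only [eq_comm]
    rw [this, smul_eq_mul]
    ring
  refine ⟨fun l => (f x)⁻¹ * f (Pi.single l 1), ?_, fun a ha => ?_⟩
  · rw [h1, inv_mul_cancel₀ hf]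
  · rw [h1, LinearMap.mem_ker.1 (hA ha), mul_zero]

private theorem dep1 {θ : F2 n} {d : ℕ} (h : mM θ d ≤ 1) {m1 m2 : F3 n} (h1 : m1 ∈ BS θ d)
    (h2 : m2 ∈ BS θ d) : ∃ c c' : ℂ, ¬ (c = 0 ∧ c' = 0) ∧
      IsB θ (fun i j k => C c * m1 i j k + C c' * m2 i j k) := by
  by_contra hcon
  have hfin : Module.Finite ℂ (Pool.Agent.Helper57.SC.MQ θ d) := by
    have := finite_BS θ d
    unfold Pool.Agent.Helper57.SC.MQ
    infer_instance
  let q1 : Pool.Agent.Helper57.SC.MQ θ d := ⟨(Pool.Agent.Helper57.SC.Bsub θ).mkQ m1, m1, h1, rfl⟩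
  let q2 : Pool.Agent.Helper57.SC.MQ θ d := ⟨(Pool.Agent.Helper57.SC.Bsub θ).mkQ m2, m2, h2, rfl⟩
  have hli : LinearIndependent ℂ ![q1, q2] := by
    rw [LinearIndependent.pair_iff]
    intro s t hst
    by_contra hne
    refine hcon ⟨s, t, hne, ?_⟩
    rw [← Pool.Agent.Helper57.SC.mkQ_eq_zero]
    have h3 : (Pool.Agent.Helper57.SC.Bsub θ).mkQ (s • m1 + t • m2) = 0 := by
      rw [map_add, map_smul, map_smul]
      exact congrArg Subtype.val hst
    rw [← h3]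
    congr 1
    funext i j k
    rw [← smul_eq_C_mul, ← smul_eq_C_mul]
    rfl
  have h4 := hli.fintype_card_le_finrank
  rw [Pool.Agent.Helper57.SC.finrank_MQ, Fintype.card_fin] at h4
  omega

private theorem three_le {E : Type} [AddCommGroup E] [Module ℂ E] [Module.Finite ℂ E]
    (R : Submodule ℂ ((Fin n → ℂ) →ₗ[ℂ] E)) {A B D : (Fin n → ℂ) →ₗ[ℂ] E} (hA : A ∈ R)
    (hB : B ∈ R) (hD : D ∈ R)
    (h : ∀ a b c : ℂ, (∀ v, a • A v + b • B v + c • D v = 0) → a = 0 ∧ b = 0 ∧ c = 0) :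
    3 ≤ Module.finrank ℂ R := by
  have hli : LinearIndependent ℂ ![(⟨A, hA⟩ : R), ⟨B, hB⟩, ⟨D, hD⟩] := by
    rw [Fintype.linearIndependent_iff]
    intro g hg
    rw [Fin.sum_univ_three] at hg
    obtain ⟨h1, h2, h3⟩ := h _ _ _ fun v => LinearMap.congr_fun (congrArg Subtype.val hg) v
    intro i
    fin_cases i
    exacts [h1, h2, h3]
  have h6 := hli.fintype_card_le_finrank
  rwa [Fintype.card_fin] at h6

private theorem comb3 {θ : F2 n} (A B D : EE θ 3) {r s t : ℂ}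
    (h1 : r • A + s • B + t • D = 0) (j : Fin n) :
    C r * (A : F1 n) j + C s * (B : F1 n) j + C t * (D : F1 n) j = 0 := by
  have h2 : r • (A : F1 n) + s • (B : F1 n) + t • (D : F1 n) = 0 := congrArg Subtype.val h1
  have h3 := congrFun h2 j
  rw [Pi.add_apply, Pi.add_apply, Pi.smul_apply, Pi.smul_apply, Pi.smul_apply, smul_eq_C_mul,
    smul_eq_C_mul, smul_eq_C_mul] at h3
  exact h3

theorem kos3 {η : F2 4} (hF : Fol η) {b b' : F3 4} (hb : b ∈ BS η 4) (hb' : b' ∈ BS η 4)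
    (hi : ∀ c c' : ℂ, IsB η (fun i j k => C c * b i j k + C c' * b' i j k) → c = 0 ∧ c' = 0)
    (ha : Module.finrank ℂ (AnnB η b) = 3) (ha' : Module.finrank ℂ (AnnB η b') = 3)
    (hne : AnnB η b ≠ AnnB η b') (h5 : mM η 5 ≤ 1) : 3 ≤ Module.finrank ℂ (RL η) := by
  classical
  -- the four linear forms
  have hn1 : ¬ AnnB η b' ≤ AnnB η b := fun hle =>
    hne (Submodule.eq_of_le_of_finrank_eq hle (by rw [ha, ha'])).symm
  have hn2 : ¬ AnnB η b ≤ AnnB η b' := fun hle =>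
    hne (Submodule.eq_of_le_of_finrank_eq hle (by rw [ha, ha']))
  obtain ⟨x1, hx1', hx1⟩ := SetLike.not_le_iff_exists.1 hn1
  obtain ⟨x2, hx2, hx2'⟩ := SetLike.not_le_iff_exists.1 hn2
  have hI : 1 < Module.finrank ℂ ↥(AnnB η b ⊓ AnnB η b') := by
    have h1 := Submodule.finrank_sup_add_finrank_inf_eq (AnnB η b) (AnnB η b')
    have h2 := Submodule.finrank_le (AnnB η b ⊔ AnnB η b')
    rw [Module.finrank_fin_fun] at h2
    omega
  haveI : Nontrivial ↥(AnnB η b ⊓ AnnB η b') := by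
    apply Module.nontrivial_of_finrank_pos (R := ℂ)
    omega
  obtain ⟨x3, hx3⟩ := exists_ne (0 : ↥(AnnB η b ⊓ AnnB η b'))
  obtain ⟨x4, hx4⟩ := exists_linearIndependent_pair_of_one_lt_finrank hI hx3
  rw [LinearIndependent.pair_iff] at hx4
  obtain ⟨p1, hp1, hp1'⟩ := dual_pt hx1
  obtain ⟨p2, hp2, hp2'⟩ := dual_pt hx2'
  -- the relation in degree 5
  have hm1 : (fun i j k => lf x1 * b i j k) ∈ BS η 5 := Pool.Agent.Helper57.SC.mul_mem_BS hb x1
  have hm2 : (fun i j k => lf x2 * b' i j k) ∈ BS η 5 := Pool.Agent.Helper57.SC.mul_mem_BS hb' x2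
  obtain ⟨c, c', hcc, hcB⟩ : ∃ c c' : ℂ, ¬ (c = 0 ∧ c' = 0) ∧
      IsB η (fun i j k => C c * (lf x1 * b i j k) + C c' * (lf x2 * b' i j k)) := dep1 h5 hm1 hm2
  have hc0 : c ≠ 0 := by
    rintro rfl
    have hc' : c' ≠ 0 := fun h => hcc ⟨rfl, h⟩
    refine hx2' ?_
    rw [mem_AnnB]
    obtain ⟨e, he⟩ := hcB.smul (C c'⁻¹)
    refine ⟨e, fun i j k => ?_⟩
    rw [← he]
    beta_reduce
    rw [C_0, zero_mul, zero_add, ← mul_assoc, ← C_mul, inv_mul_cancel₀ hc', C_1, one_mul]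
  have hc0' : c' ≠ 0 := by
    rintro rfl
    refine hx1 ?_
    rw [mem_AnnB]
    obtain ⟨e, he⟩ := hcB.smul (C c⁻¹)
    refine ⟨e, fun i j k => ?_⟩
    rw [← he]
    beta_reduce
    rw [C_0, zero_mul, add_zero, ← mul_assoc, ← C_mul, inv_mul_cancel₀ hc0, C_1, one_mul]
  have hx3A := x3.2.1
  have hx3A' := x3.2.2
  have hx4A := x4.2.1
  have hx4A' := x4.2.2
  -- multiples
  have key : ∀ {x : Fin 4 → ℂ} {β : F3 4} (r : ℂ), (∀ i j k, (β i j k).IsHomogeneous 4) →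
      x ∈ AnnB η β → ∃ ξ : F1 4, (∀ i, (ξ i).IsHomogeneous 2) ∧
        ∀ i j k, lf x * (C r * β i j k) = w12 ξ η i j k := by
    intro x β r hβ hx
    have h1 : IsB η (fun i j k => lf x * (C r * β i j k)) := by
      obtain ⟨e, he⟩ := hx.smul (C r)
      exact ⟨e, fun i j k => by rw [← he]; ring⟩
    refine (mem_BB_iff hF.hom (d := 2)).1 ⟨fun i j k => ?_, h1⟩
    exact (lf_hom x).mul ((hβ i j k).C_mul r)
  obtain ⟨ξ2, hξ2, e2⟩ := key c hb.1 hx2
  obtain ⟨ξ3, hξ3, e3⟩ := key c hb.1 hx3A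
  obtain ⟨ξ4, hξ4, e4⟩ := key c hb.1 hx4A
  obtain ⟨ζ1, hζ1, f1⟩ := key (-c') hb'.1 hx1'
  obtain ⟨ζ3, hζ3, f3⟩ := key (-c') hb'.1 hx3A'
  obtain ⟨ζ4, hζ4, f4⟩ := key (-c') hb'.1 hx4A'
  obtain ⟨ω, hω, g1⟩ : ∃ ω : F1 4, (∀ i, (ω i).IsHomogeneous 2) ∧
      ∀ i j k, lf (x1 - x2) * (C c * b i j k + C (-c') * b' i j k) = w12 ω η i j k := by
    have h1 : IsB η (fun i j k => lf (x1 - x2) * (C c * b i j k + C (-c') * b' i j k)) := by
      obtain ⟨e, he⟩ := hcB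
      refine ⟨fun l => e l + ζ1 l - ξ2 l, fun i j k => ?_⟩
      rw [Pool.Agent.Helper71.FL.w12_sub (fun l => e l + ζ1 l) ξ2,
        Pool.Agent.Helper71.FL.w12_add e ζ1, ← he, ← e2, ← f1, lf_sub, C_neg]
      ring
    refine (mem_BB_iff hF.hom (d := 2)).1 ⟨fun i j k => ?_, h1⟩
    exact (lf_hom _).mul (((hb.1 i j k).C_mul c).add ((hb'.1 i j k).C_mul (-c')))
  obtain ⟨X1, hX1, v1⟩ := kosX (θ := η) (b := fun i j k => C c * b i j k)
    ![x2, x3.1, x4.1] ![ξ2, ξ3, ξ4]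
    (by intro i; fin_cases i; exacts [hξ2, hξ3, hξ4])
    (by intro i; fin_cases i; exacts [e2, e3, e4])
  obtain ⟨X2, hX2, v2⟩ := kosX (θ := η) (b := fun i j k => C (-c') * b' i j k)
    ![x1, x3.1, x4.1] ![ζ1, ζ3, ζ4]
    (by intro i; fin_cases i; exacts [hζ1, hζ3, hζ4])
    (by intro i; fin_cases i; exacts [f1, f3, f4])
  have e3' : ∀ i j k, lf x3.1 * (C c * b i j k + C (-c') * b' i j k) =
      w12 (fun l => ξ3 l + ζ3 l) η i j k := by
    intro i j k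
    rw [Pool.Agent.Helper71.FL.w12_add ξ3 ζ3, ← e3, ← f3]
    ring
  have e4' : ∀ i j k, lf x4.1 * (C c * b i j k + C (-c') * b' i j k) =
      w12 (fun l => ξ4 l + ζ4 l) η i j k := by
    intro i j k
    rw [Pool.Agent.Helper71.FL.w12_add ξ4 ζ4, ← e4, ← f4]
    ring
  obtain ⟨X3, hX3, v3⟩ := kosX (θ := η) (b := fun i j k => C c * b i j k + C (-c') * b' i j k)
    ![x1 - x2, x3.1, x4.1] ![ω, fun l => ξ3 l + ζ3 l, fun l => ξ4 l + ζ4 l]
    (by intro i; fin_cases i; exacts [hω, fun j => (hξ3 j).add (hζ3 j), fun j => (hξ4 j).add (hζ4 j)])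
    (by intro i; fin_cases i; exacts [g1, e3', e4'])
  -- independence of `e`, `e'`
  have hee : ∀ s t : ℂ, (∀ l, C s * (lf x3.1 * ξ4 l - lf x4.1 * ξ3 l) +
      C t * (lf x3.1 * ζ4 l - lf x4.1 * ζ3 l) = 0) → s = 0 ∧ t = 0 := by
    intro s t hst
    by_cases hB : IsB η (fun i j k => C s * (C c * b i j k) + C t * (C (-c') * b' i j k))
    · have h1 : IsB η (fun i j k => C (s * c) * b i j k + C (t * (-c')) * b' i j k) := by
        obtain ⟨e, he⟩ := hB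
        exact ⟨e, fun i j k => by rw [← he, C_mul, C_mul]; ring⟩
      obtain ⟨h2, h3⟩ := hi _ _ h1
      exact ⟨(mul_eq_zero.1 h2).resolve_right hc0,
        (mul_eq_zero.1 h3).resolve_right (neg_ne_zero.2 hc0')⟩
    · exfalso
      obtain ⟨l, hl⟩ := (ann_lemma (θ := η) hB (y := lf x3.1) (y' := lf x4.1) (lf_hom _) (lf_hom _)
        (fun s' t' hst' => by
          rw [← lf_smul, ← lf_smul, ← lf_add] at hst'
          exact hx4 s' t' (Subtype.ext (lf_inj hst')))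
        (ξ := fun l => C s * ξ3 l + C t * ζ3 l) (ξ' := fun l => C s * ξ4 l + C t * ζ4 l)
        (fun i j k => by
          rw [Pool.Agent.Helper71.FL.w12_add (fun l => C s * ξ3 l) (fun l => C t * ζ3 l),
            Pool.Agent.Helper71.FL.w12_smul, Pool.Agent.Helper71.FL.w12_smul, ← e3, ← f3]
          ring)
        (fun i j k => by
          rw [Pool.Agent.Helper71.FL.w12_add (fun l => C s * ξ4 l) (fun l => C t * ζ4 l),
            Pool.Agent.Helper71.FL.w12_smul, Pool.Agent.Helper71.FL.w12_smul, ← e4, ← f4]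
          ring)).2
      refine hl ?_
      rw [← hst l]
      ring
  have a13 := hp1' _ hx3A
  have a14 := hp1' _ hx4A
  have a12 := hp1' _ hx2
  have a23 := hp2' _ hx3A'
  have a24 := hp2' _ hx4A'
  have a21 := hp2' _ hx1'
  have a1 : ∑ l, (x1 - x2) l * p1 l = 1 := by
    have : ∑ l, (x1 - x2) l * p1 l = ∑ l, x1 l * p1 l - ∑ l, x2 l * p1 l := by
      rw [← Finset.sum_sub_distrib]
      exact Finset.sum_congr rfl fun l _ => by rw [Pi.sub_apply]; ring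
    rw [this, hp1, a12, sub_zero]
  have a2 : ∑ l, (x1 - x2) l * p2 l = -1 := by
    have : ∑ l, (x1 - x2) l * p2 l = ∑ l, x1 l * p2 l - ∑ l, x2 l * p2 l := by
      rw [← Finset.sum_sub_distrib]
      exact Finset.sum_congr rfl fun l _ => by rw [Pi.sub_apply]; ring
    rw [this, hp2, a21, zero_sub]
  haveI := finite_EE η 3
  refine three_le (E := EE η 3) (RL η) hX1 hX2 hX3 fun r s t hg => ?_
  have hg' : ∀ (v : Fin 4 → ℂ) (j : Fin 4), C r * (X1 v : F1 4) j + C s * (X2 v : F1 4) j +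
      C t * (X3 v : F1 4) j = 0 := fun v j => comb3 _ _ _ (hg v) j
  have q1 : t = 0 ∧ s + t = 0 := by
    refine hee _ _ fun l => ?_
    have h1 := hg' p1 l
    rw [v1, v2, v3] at h1
    simp only [Matrix.cons_val_zero, Matrix.cons_val_one, Matrix.cons_val_two, Matrix.head_cons,
      Matrix.tail_cons, Matrix.cons_val] at h1
    rw [a1, a12, a13, a14, hp1] at h1
    simp only [C_0, C_1, zero_mul, one_mul, add_zero, mul_zero, zero_add] at h1
    rw [← h1, C_add]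
    ring
  have q2 : r = 0 ∧ (0 : ℂ) = 0 := by
    refine hee _ _ fun l => ?_
    have h1 := hg' p2 l
    rw [v1, v2, v3, q1.1] at h1
    simp only [Matrix.cons_val_zero, Matrix.cons_val_one, Matrix.cons_val_two, Matrix.head_cons,
      Matrix.tail_cons, Matrix.cons_val] at h1
    rw [a21, a23, a24, hp2] at h1
    simp only [C_0, C_1, zero_mul, one_mul, add_zero, mul_zero, zero_add] at h1
    rw [← h1, C_0]
    ring
  refine ⟨q2.1, ?_, q1.1⟩
  have := q1.2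
  rwa [q1.1, add_zero] at this

end Pool.Agent.Helper57.ZH
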