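import Pool.Agent.Helper57.SC.LemS
import Pool.Agent.Helper57.ZH.Cnt

/-! ZH-5 (project FOL, case Y, z = 4): `m_5(H) ≤ 1` if there are at most two linear relations.
`RL_count`: `4 * 5 ≤ 2 + e_4(H)`, `e_4(H) ≥ 18`.  `count_E` with `k = 3`: `13 + 5 = e_4(H) + k_6`, so `k_6 = 0`: `InjAt η 6` (an element of `BK η 6` is in `BB η 6`),
`LiftAt η 4`: every `ζ ∈ EE (rs2 η) 4` has `EE_lift`: `ξ`, `c` with `ξ ∧ η = X 0 c`, `c ∈ BS η 6` by `hz`, so `c ∈ B`, `EE_lift_iff`.
`LiftAt η k` for `k ≥ 4` by induction with `gen` (`ζ = ∑ X l * f l`, lift the `f l`, multiply by `X (succ l)`, as in `lift_ge` of `SC/H1.lean`).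
`inj_of_lift`: `InjAt η d` for `d ≥ 6`; `BS_large` and descending induction: `mM η d = 0` for `d ≥ 6` (as in `mM_ge_zero` of `SC/H1.lean`).
So `X 0 * BS η 5 ⊂ B`, `BS η 5 = BK η 5`, `mM η 5 = kM η 5`, and `count_E` with `k = 2`: `6 + 0 = 5 + k_5`: `k_5 = 1`. -/

set_option autoImplicit false

namespace Pool.Agent.Helper57.ZH

open MvPolynomial
open scoped BigOperators
open Pool.Agent.Helper71.FL (w12 pf ct Dec Closed dd at0 emb res)
open Pool.Agent.Helper93 (lsub lmap OF pb)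
open Pool.Agent.Helper71.FC
open Pool.Agent.Helper12.Z4 (KX RL mem_RL mem_KX)
open Pool.Agent.Helper57.SC (LiftAt InjAt inj_of_lift)

private theorem m5_nz {η : F2 4} (hFP : Fol (rs2 η)) : ∃ i j, rs2 η i j ≠ 0 := by
  by_contra hc
  push Not at hc
  have h1 := hFP.prim 0 (fun i j => by rw [hc i j])
  exact not_isUnit_zero h1

private theorem m5_at0_Xs (i : Fin 3) : at0 3 ℂ (X i.succ) = X i := by
  unfold at0
  rw [aeval_X, Fin.cons_succ]

private theorem m5_hom {b : F3 4} {d : ℕ} (a : Fin 4) (h : ∀ i j l, (b i j l).IsHomogeneous d)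
    (i j l : Fin 4) : (X a * b i j l).IsHomogeneous (d + 1) := by
  have h6 := (isHomogeneous_X ℂ a).mul (h i j l)
  rwa [add_comm 1 d] at h6

theorem m5_le {η : F2 4} (hF : Fol η) (h0 : hz η) (hFP : Fol (rs2 η)) (h2 : EE η 2 = ⊥)
    (e3H : Module.finrank ℂ (EE η 3) = 5) (e3P : Module.finrank ℂ (EE (rs2 η) 3) = 6)
    (e4P : Module.finrank ℂ (EE (rs2 η) 4) = 13)
    (gen : ∀ k, 3 ≤ k → ∀ ξ ∈ EE (rs2 η) (k + 1), ∃ f : Fin 3 → F1 3,
      (∀ l, f l ∈ EE (rs2 η) k) ∧ ∀ j, ξ j = ∑ l, X l * f l j)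
    (hRL : Module.finrank ℂ (RL η) ≤ 2) : mM η 5 ≤ 1 := by
  have hnz := m5_nz hFP
  have c1 := RL_count η
  have c3 : Module.finrank ℂ (EE (rs2 η) 4) + Module.finrank ℂ (EE η 3) =
      Module.finrank ℂ (EE η 4) + kM η 6 := count_E le_rfl hF.hom hF.dec hFP.prim h0 3
  have c2 : Module.finrank ℂ (EE (rs2 η) 3) + Module.finrank ℂ (EE η 2) =
      Module.finrank ℂ (EE η 3) + kM η 5 := count_E le_rfl hF.hom hF.dec hFP.prim h0 2
  rw [h2, finrank_bot] at c2
  have k6 : kM η 6 = 0 := by omega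
  have k5 : kM η 5 = 1 := by omega
  -- injectivity in degree 6
  have hinj6 : InjAt η 6 := by
    intro b hb h1
    have i1 := finite_BS η 6
    have i2 : FiniteDimensional ℂ (BK η 6) :=
      Submodule.finiteDimensional_of_le (fun _ hb => hb.1 : BK η 6 ≤ BS η 6)
    have hk : kM η 6 = Module.finrank ℂ (BK η 6) - Module.finrank ℂ (BB η 6) := rfl
    have h6 : Module.finrank ℂ (BK η 6) ≤ Module.finrank ℂ (BB η 6) := by omega
    have he : BB η 6 = BK η 6 := Submodule.eq_of_le_of_finrank_le (BB_le_BK η 6) h6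
    have h3 : b ∈ BK η 6 := ⟨hb, h1⟩
    rw [← he] at h3
    exact h3.2
  have hlift4 : LiftAt η 4 := by
    intro ζ hζ
    obtain ⟨ξ, hξ, hr, b, hbh, hb⟩ := EE_lift hF.hom hF.dec hFP.prim hζ
    have h1 : IsB η (fun i j k => X 0 * b i j k) := ⟨ξ, fun i j l => (hb i j l).symm⟩
    have hs : IsBsat η b := h0 b h1.sat
    obtain ⟨ξ', hξ', hr'⟩ := (EE_lift_iff hF.hom hnz hξ hb).2 (hinj6 b ⟨hbh, hs⟩ h1)
    exact ⟨ξ', hξ', fun i => (hr' i).trans (hr i)⟩
  have hlift : ∀ k, 4 ≤ k → LiftAt η k := by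
    intro k hk
    induction k, hk using Nat.le_induction with
    | base => exact hlift4
    | succ k hk ih =>
      intro ζ hζ
      obtain ⟨f, hf, hfs⟩ := gen k (by omega) ζ hζ
      choose g hg hgr using fun l => ih (f l) (hf l)
      refine ⟨∑ l : Fin 3, (fun j => X l.succ * g l j : F1 4),
        Submodule.sum_mem _ fun l _ => ⟨fun j => ?_, fun j a b => ?_⟩, fun j => ?_⟩
      · have h6 := (isHomogeneous_X ℂ l.succ).mul ((hg l).1 j)
        rwa [add_comm 1] at h6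
      · rw [Pool.Agent.Helper71.FL.w12_smul, (hg l).2, mul_zero]
      · rw [hfs j]
        show at0 3 ℂ ((∑ l : Fin 3, (fun j => X l.succ * g l j : F1 4)) j.succ) = _
        rw [Finset.sum_apply, map_sum]
        refine Finset.sum_congr rfl fun l _ => ?_
        rw [map_mul, m5_at0_Xs]
        congr 1
        exact hgr l j
  -- no saturation in degrees `≥ 6`
  obtain ⟨D, hD⟩ := BS_large (θ := η) hF.hom
  have hinj : ∀ d, 6 ≤ d → InjAt η d := by
    intro d hd
    obtain ⟨k, rfl⟩ : ∃ k, d = k + 2 := ⟨d - 2, by omega⟩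
    exact inj_of_lift hF.hom hnz (hlift k (by omega))
  have key : ∀ m d, 6 ≤ d → D ≤ d + m → ∀ b ∈ BS η d, IsB η b := by
    intro m
    induction m with
    | zero =>
      intro d _ hd' b hb
      exact hD d hd' b hb
    | succ m ih =>
      intro d hd hd' b hb
      apply hinj d hd b hb
      exact ih (d + 1) (by omega) (by omega) _ ⟨fun i j l => m5_hom 0 hb.1 i j l, hb.2.smul (X 0)⟩
  have he : BK η 5 = BS η 5 := by
    apply le_antisymm
    · exact fun _ hb => hb.1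
    · intro b hb
      exact ⟨hb, key D 6 le_rfl (by omega) _ ⟨fun i j l => m5_hom 0 hb.1 i j l, hb.2.smul (X 0)⟩⟩
  have hm : mM η 5 = kM η 5 := by
    unfold mM kM
    rw [he]
  omega

end Pool.Agent.Helper57.ZH
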