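import Pool.Agent.Helper57.ZH.Tr
import Pool.Agent.Helper57.ZH.Cnt
import Pool.Agent.Helper57.ZH.Kos
import Pool.Agent.Helper57.ZH.Bz
import Pool.Agent.Helper57.ZH.M5
import Pool.Agent.Helper57.ZH.Four
import Pool.Agent.Helper28.Z4.Div
import Pool.Agent.Helper53.TK.In
import Pool.Agent.Helper18.LB.SatB

/-! ZH-7 (project FOL, case Y, z = 4): block [H]: `e_3(H) = 5` on `H = ℂ^4`.
`h1`: `e_3(P) = 5` is impossible.  `h2'`: `e_3(P) = 6` implies at least three independent linear relations.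
Inputs: the plane facts `PF2`, `PF3`. -/

set_option autoImplicit false

namespace Pool.Agent.Helper57.ZH

open MvPolynomial
open scoped BigOperators
open Pool.Agent.Helper71.FL (w12 pf ct Dec Closed dd at0 emb res)
open Pool.Agent.Helper93 (lsub lmap OF pb)
open Pool.Agent.Helper71.FC
open Pool.Agent.Helper12.Z4 (KX RL mem_RL mem_KX rank3)
open Pool.Agent.Helper57.SC (AnnB mem_AnnB e0 lf_e0)

/-- plane facts, `e_3 = 6` -/
def PF2 : Prop := ∀ θ : F2 3, Fol θ → EE θ 0 = ⊥ → EE θ 1 = ⊥ → Module.finrank ℂ (EE θ 2) = 1 →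
  Module.finrank ℂ (EE θ 3) = 6 → Module.finrank ℂ (EE θ 4) = 13 ∧
    ∀ k, 3 ≤ k → ∀ ξ ∈ EE θ (k + 1), ∃ f : Fin 3 → F1 3, (∀ l, f l ∈ EE θ k) ∧
      ∀ j, ξ j = ∑ l, X l * f l j

/-- plane facts, `e_3 = 5` -/
def PF3 : Prop := ∀ θ : F2 3, Fol θ → EE θ 0 = ⊥ → EE θ 1 = ⊥ → Module.finrank ℂ (EE θ 2) = 1 →
  Module.finrank ℂ (EE θ 3) = 5 → Module.finrank ℂ (EE θ 4) ≤ 12 ∧
    ∀ X ∈ RL θ, ∃ p : Fin 3 → ℂ, p ≠ 0 ∧ X p = 0

/-- general planes -/
structure PG (c : ℕ) (θ : F2 3) : Prop where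
  fol : Fol θ
  e0 : EE θ 0 = ⊥
  e1 : EE θ 1 = ⊥
  e2 : Module.finrank ℂ (EE θ 2) = 1
  e3 : Module.finrank ℂ (EE θ 3) = c

theorem bot_of_finrank {n : ℕ} {θ : F2 n} {k : ℕ} (h : Module.finrank ℂ (EE θ k) = 0) :
    EE θ k = ⊥ := by
  have := finite_EE θ k
  exact Submodule.finrank_eq_zero.mp h

theorem PG_gen {η : F2 4} (hF : Fol η) {c : ℕ} (g0 : ge η 3 0 = 0) (g1 : ge η 3 1 = 0)
    (g2 : ge η 3 2 = 1) (g3 : ge η 3 3 = c) :
    GenM (fun φ : Fin 4 → Fin 3 → ℂ => PG c (pb2 φ η)) := by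
  refine (((((ge_gen η 3 0).and (ge_gen η 3 1)).and (ge_gen η 3 2)).and (ge_gen η 3 3)).and
    (Fol_gen (m := 3) le_rfl (by norm_num) hF)).mono fun φ hφ => ?_
  obtain ⟨⟨⟨⟨c0, c1⟩, c2⟩, c3⟩, cF⟩ := hφ
  exact ⟨cF, bot_of_finrank (c0.trans g0), bot_of_finrank (c1.trans g1), c2.trans g2, c3.trans g3⟩

theorem nz_of_fol {n : ℕ} {θ : F2 n} (h : Fol θ) : ∃ i j, θ i j ≠ 0 := by
  by_contra hcon
  push Not at hcon
  have := h.prim 0 (fun i j => by rw [hcon])
  exact not_isUnit_zero this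

theorem lmap_mm {n m k : ℕ} (φ : Fin n → Fin m → ℂ) (ψ : Fin m → Fin k → ℂ) (v : Fin k → ℂ) :
    lmap φ (lmap ψ v) = lmap (mm φ ψ) v := by
  funext i
  show ∑ j, φ i j * ∑ l, ψ j l * v l = ∑ l, (∑ j, φ i j * ψ j l) * v l
  simp only [Finset.mul_sum, Finset.sum_mul]
  rw [Finset.sum_comm]
  exact Finset.sum_congr rfl fun l _ => Finset.sum_congr rfl fun j _ => by ring

theorem lmap_idm {n : ℕ} (v : Fin n → ℂ) : lmap (idm n) v = v := by
  funext i
  show ∑ j, (if i = j then (1 : ℂ) else 0) * v j = v i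
  simp

theorem h1 (hP3 : PF3) {η : F2 4} (hF : Fol η) (h2 : EE η 2 = ⊥) (g0 : ge η 3 0 = 0)
    (g1 : ge η 3 1 = 0) (g2 : ge η 3 2 = 1) (g3 : ge η 3 3 = 5)
    (e3 : Module.finrank ℂ (EE η 3) = 5) : False := by
  have hPG := PG_gen hF g0 g1 g2 g3
  obtain ⟨g, g', hg, -, hq, hFg, -, hFP⟩ := exists_flag1 (n := 3) le_rfl hF
    (p := fun _ => True) ⟨1, one_ne_zero, fun _ _ => trivial⟩ hPG
  -- `e_4(H) ≤ 17`
  have e4 : Module.finrank ℂ (EE η 4) ≤ 17 := by
    have a1 := (hP3 _ hq.fol hq.e0 hq.e1 hq.e2 hq.e3).1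
    rw [← rs2_pb2] at a1
    have a2 : Module.finrank ℂ (EE (pb2 g η) 4) ≤ Module.finrank ℂ (EE (rs2 (pb2 g η)) 4) +
      Module.finrank ℂ (EE (pb2 g η) 3) := Pool.Agent.Helper18.LB.le_res (nz_of_fol hFP) 3
    rw [finrank_EE_pb2 η 4 hg, finrank_EE_pb2 η 3 hg] at a2
    omega
  have hcnt := RL_count η
  have hne : RL η ≠ ⊥ := by
    intro hbot
    rw [hbot, finrank_bot] at hcnt
    omega
  obtain ⟨X, hX, hX0⟩ := Submodule.exists_mem_ne_zero_of_ne_bot hne
  have hker : Module.finrank ℂ (LinearMap.ker X) ≤ 1 := by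
    have b1 : ¬ Module.finrank ℂ (LinearMap.range X) ≤ 2 := fun h => hX0 (rank3 h2 hX h)
    have b2 := LinearMap.finrank_range_add_finrank_ker X
    rw [Module.finrank_fin_fun] at b2
    omega
  -- injectivity on a general plane
  have hinj : GenM (fun φ : Fin 4 → Fin 3 → ℂ => ∀ ξ ∈ EE η 3, pb φ ξ = 0 → ξ = 0) := by
    have := finite_EE η 3
    refine Pool.Agent.Helper53.TK.genM_inj_of_exists (EE η 3) (φ0 := fun i (j : Fin 3) => g i j.succ) ?_
    intro ξ hξ h0
    exact Pool.Agent.Helper53.TK.inj_step hg hFP 3 (fun d hd => by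
      obtain rfl : d = 2 := by omega
      exact h2) hξ h0
  have hr : GenM (fun φ : Fin 4 → Fin 3 → ℂ => ∃ p : Fin 3 → ℂ, lmap φ p ≠ 0 ∧
      X (lmap φ p) = 0) := by
    refine ((hPG.and hinj).and (GenM.inj (n := 4) (m := 3) (by norm_num))).mono fun φ hφ => ?_
    obtain ⟨⟨hpg, hin⟩, hij⟩ := hφ
    obtain ⟨p, hp, hXp⟩ := (hP3 _ hpg.fol hpg.e0 hpg.e1 hpg.e2 hpg.e3).2 _ (rlm_mem φ hX)
    refine ⟨p, fun h => hp (hij ?_), ?_⟩
    · rw [h]
      funext i
      simp [lmap]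
    · have h3 : pb φ (X (lmap φ p) : F1 4) = 0 := by
        rw [← rlm_apply, hXp]
        rfl
      exact Subtype.ext (hin _ (X (lmap φ p)).2 h3)
  obtain ⟨G, ⟨G', hG⟩, hGr⟩ := ((GenM.inv 4).and
    (GenM.all fun i : Fin 4 => hr.cols (k := 4) i.succAbove (Fin.succAbove_right_injective))).exists
  choose p hp hXp using hGr
  -- the kernel is a line
  have hline : ∀ i, ∃ c : ℂ, lmap (fun k l => G k (i.succAbove l)) (p i) =
      c • lmap (fun k l => G k ((0 : Fin 4).succAbove l)) (p 0) := by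
    intro i
    have k0 : (lmap (fun k l => G k ((0 : Fin 4).succAbove l)) (p 0)) ∈ LinearMap.ker X := hXp 0
    have ki : (lmap (fun k l => G k (i.succAbove l)) (p i)) ∈ LinearMap.ker X := hXp i
    have hpos : (⟨_, k0⟩ : LinearMap.ker X) ≠ 0 := fun h => hp 0 (congrArg Subtype.val h)
    have hone : Module.finrank ℂ (LinearMap.ker X) = 1 := by
      have : Nontrivial (LinearMap.ker X) := ⟨⟨_, _, hpos⟩⟩
      have := Module.finrank_pos (R := ℂ) (M := LinearMap.ker X)
      omega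
    obtain ⟨c, hc⟩ := (finrank_eq_one_iff_of_nonzero' _ hpos).mp hone ⟨_, ki⟩
    exact ⟨c, (congrArg Subtype.val hc).symm⟩
  have hz : ∀ i, lmap G' (lmap (fun k l => G k ((0 : Fin 4).succAbove l)) (p 0)) i = 0 := by
    intro i
    obtain ⟨c, hc⟩ := hline i
    have hc0 : c ≠ 0 := by
      rintro rfl
      rw [zero_smul] at hc
      exact hp i hc
    have h4 : lmap G' (lmap (fun k l => G k (i.succAbove l)) (p i)) i = 0 := by
      rw [lmap_mm]
      show ∑ l, (∑ j, G' i j * G j (i.succAbove l)) * p i l = 0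
      refine Finset.sum_eq_zero fun l _ => ?_
      have h5 : ∑ j, G' i j * G j (i.succAbove l) = idm 4 i (i.succAbove l) := by
        rw [← hG.2]
        rfl
      rw [h5]
      unfold idm
      rw [if_neg (Fin.succAbove_ne i l).symm, zero_mul]
    rw [hc] at h4
    have h6 : lmap G' (c • lmap (fun k l => G k ((0 : Fin 4).succAbove l)) (p 0)) i =
        c * lmap G' (lmap (fun k l => G k ((0 : Fin 4).succAbove l)) (p 0)) i := by
      show ∑ j, G' i j * (c * _) = c * ∑ j, G' i j * _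
      rw [Finset.mul_sum]
      exact Finset.sum_congr rfl fun j _ => by ring
    rw [h6] at h4
    exact (mul_eq_zero.mp h4).resolve_left hc0
  apply hp 0
  have h7 : lmap G (lmap G' (lmap (fun k l => G k ((0 : Fin 4).succAbove l)) (p 0))) = 0 := by
    have h8 : lmap G' (lmap (fun k l => G k ((0 : Fin 4).succAbove l)) (p 0)) = 0 := funext hz
    rw [h8]
    funext i
    simp [lmap]
  rwa [lmap_mm, hG.1, lmap_idm] at h7

/-- an element of degree 4 which is killed by all linear forms is zero in `M` -/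
theorem no_top {η : F2 4} (hF : Fol η) (e3 : Module.finrank ℂ (EE η 3) = 5) {b : F3 4}
    (hb : b ∈ BS η 4) (hnb : ¬ IsB η b) : AnnB η b ≠ ⊤ := by
  intro htop
  have h1 : ∀ i : Fin 4, ∃ ξ : F1 4, (∀ a, (ξ a).IsHomogeneous 2) ∧
      ∀ a c e, X i * b a c e = w12 ξ η a c e := by
    intro i
    have h2 : (Pi.single i 1 : Fin 4 → ℂ) ∈ AnnB η b := by
      rw [htop]
      trivial
    have h3 : (lf (Pi.single i 1 : Fin 4 → ℂ) : Pn 4) = X i := by
      unfold lf
      rw [Finset.sum_eq_single i]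
      · simp
      · intro j _ hj
        rw [Pi.single_eq_of_ne hj, C_0, zero_mul]
      · intro h; exact absurd (Finset.mem_univ _) h
    have h4 := mem_AnnB.mp h2
    rw [h3] at h4
    refine (mem_BB_iff hF.hom (d := 2)).1 ⟨fun a c e => ?_, h4⟩
    have := (isHomogeneous_X ℂ i).mul (hb.1 a c e)
    exact this
  choose ξ hξ hξ' using h1
  refine Pool.Agent.Helper28.Z4.div_eps hF (EE η 3) le_rfl e3.le
    (fun v => av_mem_EE hF.dec hF.hom v) b hnb (fun i => X i) (fun i => isHomogeneous_X ℂ i)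
    ?_ ξ hξ' ?_
  · intro c hc
    funext i
    have h5 := congrArg (eval (Pi.single i (1 : ℂ))) hc
    rw [map_sum, Finset.sum_eq_single i] at h5
    · simpa using h5
    · intro j _ hj
      rw [map_mul, eval_C, eval_X, Pi.single_eq_of_ne hj, mul_zero]
    · intro h; exact absurd (Finset.mem_univ _) h
  · intro i j
    refine ⟨fun a => ?_, fun a c e => ?_⟩
    · exact ((isHomogeneous_X ℂ j).mul (hξ i a)).sub ((isHomogeneous_X ℂ i).mul (hξ j a))
    · rw [Pool.Agent.Helper71.FL.w12_sub (fun l => X j * ξ i l) (fun l => X i * ξ j l),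
        Pool.Agent.Helper71.FL.w12_smul, Pool.Agent.Helper71.FL.w12_smul, ← hξ', ← hξ']
      ring

theorem h2' (hP2 : PF2) {η : F2 4} (hF : Fol η) (h2 : EE η 2 = ⊥) (g0 : ge η 3 0 = 0)
    (g1 : ge η 3 1 = 0) (g2 : ge η 3 2 = 1) (g3 : ge η 3 3 = 6)
    (e3 : Module.finrank ℂ (EE η 3) = 5) : 3 ≤ Module.finrank ℂ (RL η) := by
  by_contra hlt
  have hRL : Module.finrank ℂ (RL η) ≤ 2 := by omega
  obtain ⟨g, g', hg, hall⟩ := exists_four hF (PG_gen hF g0 g1 g2 g3)
  have mm_assoc' : ∀ a b c : Fin 4 → Fin 4 → ℂ, mm (mm a b) c = mm a (mm b c) := by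
    intro a b c
    funext i j
    show ∑ l, (∑ k, a i k * b k l) * c l j = ∑ k, a i k * ∑ l, b k l * c l j
    simp only [Finset.mul_sum, Finset.sum_mul]
    rw [Finset.sum_comm]
    exact Finset.sum_congr rfl fun l _ => Finset.sum_congr rfl fun j _ => by ring
  have idm_mm' : ∀ a : Fin 4 → Fin 4 → ℂ, mm (idm 4) a = a := by
    intro a
    funext i j
    show ∑ l, (if i = l then (1 : ℂ) else 0) * a l j = a i j
    simp
  have hs : ∀ i, Inv (mm g (sw i)) (mm (sw i) g') := by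
    intro i
    constructor
    · rw [mm_assoc', ← mm_assoc' (sw i) (sw i) g', (sw_inv i).1, idm_mm', hg.1]
    · rw [mm_assoc', ← mm_assoc' g' g (sw i), hg.2, idm_mm', (sw_inv i).1]
  have hE2 : ∀ i, EE (pb2 (mm g (sw i)) η) 2 = ⊥ := by
    intro i
    refine bot_of_finrank ?_
    rw [finrank_EE_pb2 η 2 (hs i), h2, finrank_bot]
  have hE3 : ∀ i, Module.finrank ℂ (EE (pb2 (mm g (sw i)) η) 3) = 5 := by
    intro i
    rw [finrank_EE_pb2 η 3 (hs i), e3]
  have hP : ∀ i, PG 6 (rs2 (pb2 (mm g (sw i)) η)) := by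
    intro i
    rw [rs2_pb2]
    exact (hall i).2.2
  have h5 : mM η 5 ≤ 1 := by
    rw [← mM_pb2 η (hs 0) 5]
    obtain ⟨e4P, gen⟩ := hP2 _ (hP 0).fol (hP 0).e0 (hP 0).e1 (hP 0).e2 (hP 0).e3
    refine m5_le (Fol_pb2 hF (hs 0)) (hall 0).1 (hall 0).2.1 (hE2 0) (hE3 0) (hP 0).e3 e4P gen ?_
    rw [finrank_RL_pb2 η (hs 0)]
    exact hRL
  have hb : ∀ i, ∃ b ∈ BS η 4, ¬ IsB η b ∧ g' i ∈ AnnB η b ∧
      3 ≤ Module.finrank ℂ (AnnB η b) := by
    intro i
    obtain ⟨b, hb, hnb, hX, h3⟩ := exists_b (Fol_pb2 hF (hs i)) (hall i).1 (hall i).2.1 (hE2 i)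
      (by rw [(hP i).e2]; exact one_ne_zero) (hE3 i) (hP i).e3.le
    have hback : pb2 (mm (sw i) g') (pb2 (mm g (sw i)) η) = η := by
      rw [pb2_mm, (hs i).1, pb2_idm]
    have q1 := BS_pb3 (hs i).symm hb
    have q2 := IsB_pb3_iff (θ := pb2 (mm g (sw i)) η) (b := b) (hs i).symm
    have q3 := finrank_AnnB_pb3 (θ := pb2 (mm g (sw i)) η) (b := b) (hs i).symm
    have q4 := mem_AnnB_pb3 (θ := pb2 (mm g (sw i)) η) (b := b) (hs i).symm (e0 3)
    rw [hback] at q1 q2 q3 q4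
    refine ⟨pb3 (mm (sw i) g') b, q1, fun h => hnb (q2.mp h), ?_, by rw [q3]; exact h3⟩
    have q5 : e0 3 ∈ AnnB (pb2 (mm g (sw i)) η) b := by
      rw [mem_AnnB, lf_e0]
      exact hX
    have q6 := q4.mpr q5
    have q7 : (fun j => ∑ k, e0 3 k * mm (sw i) g' k j) = g' i := by
      funext j
      rw [Finset.sum_eq_single 0]
      · show (if (0 : Fin 4) = 0 then (1 : ℂ) else 0) * (∑ l, sw i 0 l * g' l j) = g' i j
        rw [if_pos rfl, one_mul, Finset.sum_eq_single i]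
        · rw [sw_zero, if_pos rfl, one_mul]
        · intro l _ hl
          rw [sw_zero, if_neg hl.symm, zero_mul]
        · intro h; exact absurd (Finset.mem_univ _) h
      · intro l _ hl
        unfold e0
        rw [if_neg hl, zero_mul]
      · intro h; exact absurd (Finset.mem_univ _) h
    rw [q7] at q6
    exact q6
  have hthree : ∀ b ∈ BS η 4, ¬ IsB η b → 3 ≤ Module.finrank ℂ (AnnB η b) →
      Module.finrank ℂ (AnnB η b) = 3 := by
    intro b hb hnb h3
    have h4 := Submodule.finrank_lt (no_top hF e3 hb hnb)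
    rw [Module.finrank_fin_fun] at h4
    omega
  obtain ⟨b, hbS, hnb, hb0, hb3⟩ := hb 0
  obtain ⟨i, hi⟩ : ∃ i, g' i ∉ AnnB η b := by
    by_contra hcon
    push Not at hcon
    apply no_top hF e3 hbS hnb
    rw [eq_top_iff]
    intro a _
    have h6 : a = ∑ i, (∑ k, a k * g k i) • g' i := by
      funext j
      rw [Finset.sum_apply]
      show a j = ∑ i, (∑ k, a k * g k i) * g' i j
      have h7 : ∀ k, ∑ i, g k i * g' i j = idm 4 k j := by
        intro k
        rw [← hg.1]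
        rfl
      calc a j = ∑ k, a k * idm 4 k j := by
            unfold idm
            simp
        _ = ∑ k, a k * ∑ i, g k i * g' i j := by simp only [h7]
        _ = _ := by
            simp only [Finset.mul_sum, Finset.sum_mul]
            rw [Finset.sum_comm]
            exact Finset.sum_congr rfl fun l _ => Finset.sum_congr rfl fun j _ => by ring
    rw [h6]
    exact Submodule.sum_mem _ fun i _ => Submodule.smul_mem _ _ (hcon i)
  obtain ⟨b', hbS', hnb', hbi, hb3'⟩ := hb i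
  have hCinv : ∀ (c : ℂ) (t : F3 4), c ≠ 0 → IsB η (fun a b e => C c * t a b e) → IsB η t := by
    intro c t hc h
    have h8 := h.smul (C c⁻¹)
    have h9 : (fun a b e => C c⁻¹ * (C c * t a b e)) = t := by
      funext a b e
      rw [← mul_assoc, ← C_mul, inv_mul_cancel₀ hc, C_1, one_mul]
    rwa [h9] at h8
  have hind : ∀ c c' : ℂ, IsB η (fun i j k => C c * b i j k + C c' * b' i j k) →
      c = 0 ∧ c' = 0 := by
    intro c c' h
    have hc' : c' = 0 := by
      by_contra hc'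
      have hc : c = 0 := by
        by_contra hc
        apply hi
        rw [mem_AnnB]
        apply hCinv c _ hc
        have h8 := (h.smul (lf (g' i))).add ((mem_AnnB.mp hbi).smul (C (-c')))
        have h9 : (fun a d e => lf (g' i) * (C c * b a d e + C c' * b' a d e) +
            C (-c') * (lf (g' i) * b' a d e)) = fun a d e => C c * (lf (g' i) * b a d e) := by
          funext a d e
          rw [C_neg]
          ring
        rwa [h9] at h8
      apply hnb'
      apply hCinv c' _ hc'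
      have h9 : (fun a d e => C c * b a d e + C c' * b' a d e) = fun a d e => C c' * b' a d e := by
        funext a d e
        rw [hc, C_0, zero_mul, zero_add]
      rwa [h9] at h
    refine ⟨?_, hc'⟩
    by_contra hc
    apply hnb
    apply hCinv c _ hc
    have h9 : (fun a d e => C c * b a d e + C c' * b' a d e) = fun a d e => C c * b a d e := by
      funext a d e
      rw [hc', C_0, zero_mul, add_zero]
    rwa [h9] at h
  have hne : AnnB η b ≠ AnnB η b' := fun h => hi (by rw [h]; exact hbi)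
  have := kos3 hF hbS hbS' hind (hthree b hbS hnb hb3) (hthree b' hbS' hnb' hb3') hne h5
  omega

end Pool.Agent.Helper57.ZH
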