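import Pool.Agent.Helper57.SC.Ann
import Pool.Agent.Helper12.Z4.Rank

/-! ZH-1 (project FOL, case Y, z = 4): transport of 3-forms, annihilators, `M` and linear relations along matrices.
* `pb3_mm`, `pb3_idm`, `pb3_eq` etc.: copy from the private lemmas of `Helper71/FC/SatH.lean` (lines 300-370).
* `IsB_pb3_iff`: `IsB_pb3` for `g` and for `g'` (`pb2_mm`, `pb2_idm`, `pb3_mm`, `pb3_idm`).  `BS_pb3`: `isBsat_pb3` in `SatH.lean`.
* `finrank_AnnB_pb3`: `a ↦ (j ↦ ∑ i, a i * g i j)` is a linear isomorphism (inverse: the same with `g'`) which carries `AnnB θ b` onto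
  `AnnB (pb2 g θ) (pb3 g b)` (`pb3_mul`, `lsub_lf`, `IsB_pb3_iff`).
* `mM_pb2`: `pb3 g` is a linear isomorphism carrying `BS θ d`, `BB θ d` onto `BS (pb2 g θ) d`, `BB (pb2 g θ) d`.
* `rlm`: `X ↦ (v ↦ pb φ (X (lmap φ v)))`; `rlm_mem`: `eval v (pb φ ξ i) = ∑ j, φ j i * eval (lmap φ v) (ξ j)` (helper53 `eval_pb'` in `TK/In.lean`).
* `finrank_RL_pb2`: `rlm g`, `rlm g'` are injective on `RL` (`pb_mm`, `pb_idm`, `pb2_mm`); two inequalities. -/

set_option autoImplicit false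

namespace Pool.Agent.Helper57.ZH

open MvPolynomial
open scoped BigOperators
open Pool.Agent.Helper71.FL (w12 pf ct Dec Closed dd at0 emb res)
open Pool.Agent.Helper93 (lsub lmap OF pb)
open Pool.Agent.Helper71.FC
open Pool.Agent.Helper12.Z4 (KX RL mem_RL mem_KX)
open Pool.Agent.Helper57.SC (AnnB mem_AnnB)

variable {n m k : ℕ}

/-- pullback of 3-forms -/
noncomputable def pb3 (φ : Fin n → Fin m → ℂ) (b : F3 n) : F3 m :=
  fun i j l => ∑ a, ∑ c, ∑ e, C (φ a i * φ c j * φ e l) * lsub φ (b a c e)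

private theorem tr_pb3_eq (φ : Fin n → Fin m → ℂ) (b : F3 n) (i j l : Fin m) :
    pb3 φ b i j l = ∑ a, C (φ a i) * pb2 φ (b a) j l := by
  unfold pb3 pb2
  refine Finset.sum_congr rfl fun a _ => ?_
  rw [Finset.mul_sum]
  refine Finset.sum_congr rfl fun c _ => ?_
  rw [Finset.mul_sum]
  refine Finset.sum_congr rfl fun e _ => ?_
  rw [← mul_assoc, ← C_mul, mul_assoc]

private theorem tr_lsub_C (φ : Fin n → Fin m → ℂ) (c : ℂ) : lsub φ (C c) = C c := by
  unfold lsub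
  rw [aeval_C]
  rfl

private theorem tr_pb2_sum (φ : Fin n → Fin m → ℂ) {α : Type} (s : Finset α)
    (t : α → F2 n) (c : α → ℂ) (i j : Fin m) :
    pb2 φ (fun k l => ∑ a ∈ s, C (c a) * t a k l) i j = ∑ a ∈ s, C (c a) * pb2 φ (t a) i j := by
  unfold pb2
  simp only [map_sum, map_mul, tr_lsub_C, Finset.mul_sum]
  conv_rhs => rw [Finset.sum_comm]
  refine Finset.sum_congr rfl fun k _ => ?_
  conv_rhs => rw [Finset.sum_comm]
  refine Finset.sum_congr rfl fun l _ => Finset.sum_congr rfl fun a _ => ?_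
  ring

theorem pb3_mm (φ : Fin n → Fin m → ℂ) (ψ : Fin m → Fin k → ℂ) (b : F3 n) :
    pb3 ψ (pb3 φ b) = pb3 (mm φ ψ) b := by
  funext i j l
  have h1 : ∀ a, pb2 ψ (pb3 φ b a) j l = ∑ a', C (φ a' a) * pb2 (mm φ ψ) (b a') j l := by
    intro a
    have h2 : pb3 φ b a = fun c e => ∑ a', C (φ a' a) * pb2 φ (b a') c e := by
      funext c e
      exact tr_pb3_eq φ b a c e
    rw [h2, tr_pb2_sum ψ Finset.univ (fun a' => pb2 φ (b a')) (fun a' => φ a' a)]
    refine Finset.sum_congr rfl fun a' _ => ?_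
    rw [pb2_mm]
  rw [tr_pb3_eq, tr_pb3_eq]
  simp only [h1, Finset.mul_sum]
  rw [Finset.sum_comm]
  refine Finset.sum_congr rfl fun a' _ => ?_
  unfold mm
  rw [map_sum, Finset.sum_mul]
  refine Finset.sum_congr rfl fun a _ => ?_
  rw [C_mul]
  ring

theorem pb3_idm (b : F3 n) : pb3 (idm n) b = b := by
  funext i j l
  rw [tr_pb3_eq]
  simp only [pb2_idm]
  rw [Finset.sum_eq_single i]
  · simp [idm]
  · intro a _ ha
    simp [idm, ha]
  · intro h; exact absurd (Finset.mem_univ _) h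

theorem pb3_hom {φ : Fin n → Fin m → ℂ} {b : F3 n} {d : ℕ}
    (h : ∀ i j k, (b i j k).IsHomogeneous d) (i j l : Fin m) : (pb3 φ b i j l).IsHomogeneous d := by
  unfold pb3
  refine IsHomogeneous.sum _ _ _ fun a _ => IsHomogeneous.sum _ _ _ fun c _ =>
    IsHomogeneous.sum _ _ _ fun e _ => ?_
  have := (isHomogeneous_C (Fin m) (φ a i * φ c j * φ e l)).mul (lsub_hom (φ := φ) (h a c e))
  rwa [zero_add] at this

theorem pb3_mul (φ : Fin n → Fin m → ℂ) (f : Pn n) (b : F3 n) :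
    pb3 φ (fun i j k => f * b i j k) = fun i j k => lsub φ f * pb3 φ b i j k := by
  funext i j k
  unfold pb3
  simp only [map_mul, Finset.mul_sum]
  refine Finset.sum_congr rfl fun a _ => Finset.sum_congr rfl fun c _ =>
    Finset.sum_congr rfl fun e _ => ?_
  ring

theorem pb3_add (φ : Fin n → Fin m → ℂ) (b b' : F3 n) : pb3 φ (b + b') = pb3 φ b + pb3 φ b' := by
  funext i j k
  show pb3 φ (b + b') i j k = pb3 φ b i j k + pb3 φ b' i j k
  unfold pb3
  simp only [Pi.add_apply, map_add, mul_add, Finset.sum_add_distrib]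

theorem IsB_pb3 {θ : F2 n} {b : F3 n} (h : IsB θ b) (φ : Fin n → Fin m → ℂ) :
    IsB (pb2 φ θ) (pb3 φ b) := IsB_pb h φ

theorem IsB_pb3_iff {θ : F2 n} {b : F3 n} {g g' : Fin n → Fin n → ℂ} (hg : Inv g g') :
    IsB (pb2 g θ) (pb3 g b) ↔ IsB θ b := by
  refine ⟨fun h => ?_, fun h => IsB_pb3 h g⟩
  have h1 := IsB_pb3 h g'
  rwa [pb2_mm, pb3_mm, hg.1, pb2_idm, pb3_idm] at h1

private theorem tr_isBsat {θ : F2 n} {b : F3 n} (hb : IsBsat θ b) {g g' : Fin n → Fin n → ℂ}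
    (hg : Inv g g') : IsBsat (pb2 g θ) (pb3 g b) := by
  obtain ⟨K, hK⟩ := hb
  refine ⟨K, fun f hf => ?_⟩
  have h1 : lsub g (lsub g' f) = f := by
    rw [lsub_mm, hg.2, lsub_idm]
  have h2 := IsB_pb3 (hK (lsub g' f) (lsub_hom hf)) g
  rw [pb3_mul, h1] at h2
  exact h2

theorem BS_pb3 {θ : F2 n} {b : F3 n} {g g' : Fin n → Fin n → ℂ} (hg : Inv g g') {d : ℕ}
    (h : b ∈ BS θ d) : pb3 g b ∈ BS (pb2 g θ) d :=
  ⟨pb3_hom h.1, tr_isBsat h.2 hg⟩

theorem lsub_lf (φ : Fin n → Fin m → ℂ) (a : Fin n → ℂ) :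
    lsub φ (lf a) = lf (fun j => ∑ i, a i * φ i j) := by
  unfold lf lsub
  simp only [map_sum, map_mul, aeval_C, aeval_X, algebraMap_eq, Finset.mul_sum, Finset.sum_mul]
  rw [Finset.sum_comm]
  refine Finset.sum_congr rfl fun l _ => Finset.sum_congr rfl fun k _ => ?_
  ring

theorem mem_AnnB_pb3 {θ : F2 n} {b : F3 n} {g g' : Fin n → Fin n → ℂ} (hg : Inv g g')
    (a : Fin n → ℂ) : (fun j => ∑ i, a i * g i j) ∈ AnnB (pb2 g θ) (pb3 g b) ↔ a ∈ AnnB θ b := by
  rw [mem_AnnB, mem_AnnB, ← IsB_pb3_iff (b := fun i j k => lf a * b i j k) hg, pb3_mul, lsub_lf]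

/-- row vectors times a matrix -/
private noncomputable def tr_row (g : Fin n → Fin n → ℂ) : (Fin n → ℂ) →ₗ[ℂ] (Fin n → ℂ) where
  toFun a := fun j => ∑ i, a i * g i j
  map_add' := by
    intro a b
    funext j
    simp only [Pi.add_apply, add_mul, Finset.sum_add_distrib]
  map_smul' := by
    intro c a
    funext j
    simp only [Pi.smul_apply, smul_eq_mul, RingHom.id_apply, Finset.mul_sum, mul_assoc]

private theorem tr_row_row {g g' : Fin n → Fin n → ℂ} (h : mm g g' = idm n) (a : Fin n → ℂ) :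
    tr_row g' (tr_row g a) = a := by
  funext j
  show ∑ l, (∑ i, a i * g i l) * g' l j = a j
  have h1 : ∀ i, ∑ l, g i l * g' l j = if i = j then 1 else 0 := fun i =>
    congrFun (congrFun h i) j
  calc ∑ l, (∑ i, a i * g i l) * g' l j = ∑ i, a i * ∑ l, g i l * g' l j := by
        simp only [Finset.sum_mul, Finset.mul_sum, mul_assoc]
        rw [Finset.sum_comm]
    _ = a j := by
        simp only [h1]
        simp

private theorem tr_row_inj {g g' : Fin n → Fin n → ℂ} (hg : Inv g g') :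
    Function.Injective (tr_row g) := by
  intro a b hab
  rw [← tr_row_row hg.1 a, hab, tr_row_row hg.1]

theorem finrank_AnnB_pb3 {θ : F2 n} {b : F3 n} {g g' : Fin n → Fin n → ℂ} (hg : Inv g g') :
    Module.finrank ℂ (AnnB (pb2 g θ) (pb3 g b)) = Module.finrank ℂ (AnnB θ b) := by
  have h1 : (AnnB θ b).map (tr_row g) = AnnB (pb2 g θ) (pb3 g b) := by
    apply le_antisymm
    · rintro _ ⟨a, ha, rfl⟩
      exact (mem_AnnB_pb3 hg a).2 ha
    · intro a ha
      refine ⟨tr_row g' a, (mem_AnnB_pb3 hg _).1 ?_, tr_row_row hg.2 a⟩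
      show tr_row g (tr_row g' a) ∈ _
      rw [tr_row_row hg.2]
      exact ha
  rw [← h1]
  exact (Submodule.equivMapOfInjective _ (tr_row_inj hg) _).finrank_eq.symm

private noncomputable def tr_pb3L (φ : Fin n → Fin m → ℂ) : F3 n →ₗ[ℂ] F3 m where
  toFun := pb3 φ
  map_add' := pb3_add φ
  map_smul' := by
    intro c a
    have h : (c • a : F3 n) = fun i j k => C c * a i j k := by
      funext i j k
      show c • a i j k = _
      rw [smul_eq_C_mul]
    rw [h, pb3_mul]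
    funext i j k
    show lsub φ (C c) * pb3 φ a i j k = c • pb3 φ a i j k
    rw [tr_lsub_C, smul_eq_C_mul]

private theorem tr_pb3L_inj {g g' : Fin n → Fin n → ℂ} (hg : Inv g g') :
    Function.Injective (tr_pb3L g) := by
  intro a b hab
  have h1 : pb3 g a = pb3 g b := hab
  rw [← pb3_idm a, ← hg.1, ← pb3_mm, h1, pb3_mm, hg.1, pb3_idm]

theorem mM_pb2 (θ : F2 n) {g g' : Fin n → Fin n → ℂ} (hg : Inv g g') (d : ℕ) :
    mM (pb2 g θ) d = mM θ d := by
  have hb : pb2 g' (pb2 g θ) = θ := by rw [pb2_mm, hg.1, pb2_idm]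
  have h1 : (BS θ d).map (tr_pb3L g) = BS (pb2 g θ) d := by
    apply le_antisymm
    · rintro _ ⟨b, hb', rfl⟩
      exact BS_pb3 hg hb'
    · intro b hb'
      refine ⟨pb3 g' b, ?_, ?_⟩
      · have := BS_pb3 (θ := pb2 g θ) (And.symm hg : Inv g' g) hb'
        rwa [hb] at this
      · show pb3 g (pb3 g' b) = b
        rw [pb3_mm, hg.2, pb3_idm]
  have h2 : (BB θ d).map (tr_pb3L g) = BB (pb2 g θ) d := by
    apply le_antisymm
    · rintro _ ⟨b, hb', rfl⟩
      exact ⟨pb3_hom hb'.1, IsB_pb3 hb'.2 g⟩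
    · intro b hb'
      refine ⟨pb3 g' b, ⟨pb3_hom hb'.1, ?_⟩, ?_⟩
      · have := IsB_pb3 hb'.2 g'
        rwa [hb] at this
      · show pb3 g (pb3 g' b) = b
        rw [pb3_mm, hg.2, pb3_idm]
  unfold mM
  rw [← h1, ← h2]
  rw [(Submodule.equivMapOfInjective _ (tr_pb3L_inj hg) (BS θ d)).finrank_eq,
    (Submodule.equivMapOfInjective _ (tr_pb3L_inj hg) (BB θ d)).finrank_eq]

private theorem tr_pb_add (φ : Fin n → Fin m → ℂ) (ξ ξ' : F1 n) :
    pb φ (ξ + ξ') = pb φ ξ + pb φ ξ' := pb_add φ ξ ξ'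

private theorem tr_pb_smul (φ : Fin n → Fin m → ℂ) (c : ℂ) (ξ : F1 n) :
    pb φ (c • ξ) = c • pb φ ξ := by
  have h1 : (c • ξ : F1 n) = fun i => C c * ξ i := by
    funext i
    rw [Pi.smul_apply, smul_eq_C_mul]
  rw [h1, pb_smul]
  funext i
  rw [Pi.smul_apply, smul_eq_C_mul]
  congr 1
  exact tr_lsub_C φ c

private theorem tr_eval_pb (φ : Fin n → Fin m → ℂ) (ξ : F1 n) (i : Fin m) (x : Fin m → ℂ) :
    eval x (pb φ ξ i) = ∑ j, φ j i * eval (lmap φ x) (ξ j) := by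
  unfold pb
  rw [map_sum]
  apply Finset.sum_congr rfl; intro j _
  rw [map_mul, eval_C, Pool.Agent.Helper93.eval_lsub]

private theorem tr_lmap_mm (φ : Fin n → Fin m → ℂ) (ψ : Fin m → Fin k → ℂ) (x : Fin k → ℂ) :
    lmap (mm φ ψ) x = lmap φ (lmap ψ x) := by
  funext i
  show ∑ l, mm φ ψ i l * x l = ∑ l, φ i l * ∑ q, ψ l q * x q
  simp only [mm, Finset.sum_mul, Finset.mul_sum]
  rw [Finset.sum_comm]
  apply Finset.sum_congr rfl; intro l _
  apply Finset.sum_congr rfl; intro q _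
  ring

private theorem tr_lmap_idm (x : Fin n → ℂ) : lmap (idm n) x = x := by
  funext i
  show ∑ l, idm n i l * x l = x i
  simp [idm]

/-- pullback of linear relations -/
noncomputable def rlm (φ : Fin n → Fin m → ℂ) (θ : F2 n) (X : (Fin n → ℂ) →ₗ[ℂ] EE θ 3) :
    (Fin m → ℂ) →ₗ[ℂ] EE (pb2 φ θ) 3 where
  toFun v := ⟨pb φ (X (lmap φ v) : F1 n), EE_pb (X (lmap φ v)).2 φ⟩
  map_add' := by
    intro v w
    apply Subtype.ext
    show pb φ (X (lmap φ (v + w)) : F1 n) = pb φ (X (lmap φ v) : F1 n) + pb φ (X (lmap φ w) : F1 n)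
    rw [map_add, map_add]
    exact tr_pb_add φ _ _
  map_smul' := by
    intro c v
    apply Subtype.ext
    show pb φ (X (lmap φ (c • v)) : F1 n) = c • pb φ (X (lmap φ v) : F1 n)
    rw [map_smul, map_smul]
    exact tr_pb_smul φ c _

theorem rlm_apply (φ : Fin n → Fin m → ℂ) (θ : F2 n) (X : (Fin n → ℂ) →ₗ[ℂ] EE θ 3)
    (v : Fin m → ℂ) : (rlm φ θ X v : F1 m) = pb φ (X (lmap φ v) : F1 n) := rfl

theorem rlm_mem (φ : Fin n → Fin m → ℂ) {θ : F2 n} {X : (Fin n → ℂ) →ₗ[ℂ] EE θ 3}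
    (hX : X ∈ RL θ) : rlm φ θ X ∈ RL (pb2 φ θ) := by
  rw [mem_RL]
  intro v
  rw [mem_KX]
  intro j
  rw [rlm_apply, tr_eval_pb]
  refine Finset.sum_eq_zero fun i _ => ?_
  rw [mem_KX.1 (mem_RL.1 hX (lmap φ v)) i, mul_zero]

private noncomputable def tr_rlm (g : Fin n → Fin n → ℂ) (θ : F2 n) :
    RL θ →ₗ[ℂ] RL (pb2 g θ) where
  toFun X := ⟨rlm g θ X.1, rlm_mem g X.2⟩
  map_add' := by
    intro X Y
    apply Subtype.ext
    apply LinearMap.ext
    intro v
    apply Subtype.ext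
    exact tr_pb_add g _ _
  map_smul' := by
    intro c X
    apply Subtype.ext
    apply LinearMap.ext
    intro v
    apply Subtype.ext
    exact tr_pb_smul g c _

private theorem tr_rlm_inj (θ : F2 n) {g g' : Fin n → Fin n → ℂ} (hg : Inv g g') :
    Function.Injective (tr_rlm g θ) := by
  intro X Y h
  apply Subtype.ext
  apply LinearMap.ext
  intro v
  apply Subtype.ext
  have h1 : rlm g θ X.1 (lmap g' v) = rlm g θ Y.1 (lmap g' v) :=
    LinearMap.congr_fun (congrArg Subtype.val h) (lmap g' v)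
  have h2 := congrArg Subtype.val h1
  rw [rlm_apply, rlm_apply, ← tr_lmap_mm, hg.1, tr_lmap_idm] at h2
  have h3 := congrArg (pb g') h2
  rwa [pb_mm, pb_mm, hg.1, pb_idm, pb_idm] at h3

private theorem tr_finite_EE (θ : F2 n) (k : ℕ) : Module.Finite ℂ (EE θ k) := by
  have h1 : Module.Finite ℂ (homogeneousSubmodule (Fin n) ℂ k) :=
    Module.Finite.iff_fg.mpr (homogeneousSubmodule_fg (Fin n) ℂ k)
  let f : EE θ k →ₗ[ℂ] (Fin n → homogeneousSubmodule (Fin n) ℂ k) :=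
    { toFun := fun b i => ⟨b.1 i, b.2.1 i⟩
      map_add' := fun a b => rfl
      map_smul' := fun c a => rfl }
  refine Module.Finite.of_injective f fun a b hab => ?_
  apply Subtype.ext
  funext i
  exact congrArg Subtype.val (congrFun hab i)

private theorem tr_finrank_le (θ : F2 n) {g g' : Fin n → Fin n → ℂ} (hg : Inv g g') :
    Module.finrank ℂ (RL θ) ≤ Module.finrank ℂ (RL (pb2 g θ)) := by
  have := tr_finite_EE (pb2 g θ) 3
  exact LinearMap.finrank_le_finrank_of_injective (tr_rlm_inj θ hg)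

theorem finrank_RL_pb2 (θ : F2 n) {g g' : Fin n → Fin n → ℂ} (hg : Inv g g') :
    Module.finrank ℂ (RL (pb2 g θ)) = Module.finrank ℂ (RL θ) := by
  apply le_antisymm
  · have h1 := tr_finrank_le (pb2 g θ) (And.symm hg : Inv g' g)
    rwa [pb2_mm, hg.1, pb2_idm] at h1
  · exact tr_finrank_le θ hg

end Pool.Agent.Helper57.ZH
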